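import Pool.Agent.Helper65.FC.Stm

/-!
Project FC: module EST. -/

set_option autoImplicit false

open Filter Topology Metric Set

namespace Pool.Agent.Helper65.FC.EST

theorem main : S_EST := by
  intro M k u hM hu hb R hR hRk z hz
  have hk : (0 : ℝ) < (k : ℝ) + 1 := by positivity
  have hsub : ∀ w ∈ ball (0 : ℂ) R, w ∈ ball (0 : ℂ) (((k : ℝ) + 1) / 2) := by
    intro w hw
    rw [mem_ball_zero_iff] at hw ⊢
    linarith
  have hd : ∀ w ∈ ball (0 : ℂ) R, DifferentiableAt ℂ u w := fun w hw =>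
    hu.differentiableAt (isOpen_ball.mem_nhds (hsub w hw))
  have hdd : DifferentiableOn ℂ (deriv u) (ball 0 (((k : ℝ) + 1) / 2)) := hu.deriv isOpen_ball
  have hd2 : ∀ w ∈ ball (0 : ℂ) R, DifferentiableAt ℂ (deriv u) w := fun w hw =>
    hdd.differentiableAt (isOpen_ball.mem_nhds (hsub w hw))
  have hcl : ∀ w ∈ ball (0 : ℂ) R, closedBall w (((k : ℝ) + 1) / 8) ⊆
      ball (0 : ℂ) (((k : ℝ) + 1) / 2) := by
    intro w hw v hv
    rw [mem_ball_zero_iff] at hw ⊢
    rw [mem_closedBall, dist_eq_norm] at hv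
    have h1 : ‖v‖ ≤ ‖v - w‖ + ‖w‖ := by
      have := norm_add_le (v - w) w
      rwa [sub_add_cancel] at this
    linarith
  have h2 : ∀ w ∈ ball (0 : ℂ) R, ‖deriv (deriv u) w‖ ≤ 8 * M / (k + 1) := by
    intro w hw
    have h8 : (0 : ℝ) < ((k : ℝ) + 1) / 8 := by positivity
    have h3 : DiffContOnCl ℂ (deriv u) (ball w (((k : ℝ) + 1) / 8)) :=
      (hdd.mono (hcl w hw)).diffContOnCl_ball subset_rfl
    have h4 := Complex.norm_deriv_le_of_forall_mem_sphere_norm_le h8 h3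
      (fun v hv => hb v (hcl w hw (sphere_subset_closedBall hv)))
    have h5 : M / (((k : ℝ) + 1) / 8) = 8 * M / (k + 1) := by
      field_simp
    rwa [h5] at h4
  have h0 : (0 : ℂ) ∈ ball (0 : ℂ) R := mem_ball_self hR
  have hC : ∀ w ∈ ball (0 : ℂ) R, ‖deriv u w - deriv u 0‖ ≤ 8 * M * R / (k + 1) := by
    intro w hw
    have h3 := Convex.norm_image_sub_le_of_norm_deriv_le hd2 h2 (convex_ball 0 R) h0 hw
    rw [sub_zero] at h3
    rw [mem_ball_zero_iff] at hw
    have h4 : 8 * M / ((k : ℝ) + 1) * ‖w‖ ≤ 8 * M / (k + 1) * R :=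
      mul_le_mul_of_nonneg_left hw.le (by positivity)
    calc ‖deriv u w - deriv u 0‖ ≤ 8 * M / ((k : ℝ) + 1) * ‖w‖ := h3
      _ ≤ 8 * M / (k + 1) * R := h4
      _ = 8 * M * R / (k + 1) := by ring
  refine ⟨hC z hz, ?_⟩
  have hf : ∀ w ∈ ball (0 : ℂ) R, HasDerivAt (fun v => u v - deriv u 0 * v) (deriv u w - deriv u 0) w := by
    intro w hw
    have h3 := (hd w hw).hasDerivAt
    have h4 : HasDerivAt (fun v : ℂ => deriv u 0 * v) (deriv u 0) w := by
      simpa using (hasDerivAt_id w).const_mul (deriv u 0)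
    exact h3.sub h4
  have h5 := Convex.norm_image_sub_le_of_norm_deriv_le (f := fun v => u v - deriv u 0 * v)
    (fun w hw => (hf w hw).differentiableAt)
    (fun w hw => by rw [(hf w hw).deriv]; exact hC w hw) (convex_ball 0 R) h0 hz
  rw [sub_zero, mul_zero, sub_zero] at h5
  rw [mem_ball_zero_iff] at hz
  have h6 : u z - deriv u 0 * z - u 0 = u z - u 0 - deriv u 0 * z := by ring
  rw [h6] at h5
  have h7 : 8 * M * R / ((k : ℝ) + 1) * ‖z‖ ≤ 8 * M * R / (k + 1) * R :=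
    mul_le_mul_of_nonneg_left hz.le (by positivity)
  calc ‖u z - u 0 - deriv u 0 * z‖ ≤ 8 * M * R / ((k : ℝ) + 1) * ‖z‖ := h5
    _ ≤ 8 * M * R / (k + 1) * R := h7
    _ = 8 * M * R ^ 2 / (k + 1) := by ring

end Pool.Agent.Helper65.FC.EST
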