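import Pool.Agent.Helper65.FC.Stm

/-! # A quantitative inverse function theorem in one complex variable (helper93) -/

set_option autoImplicit false
open Filter Topology Metric Set

namespace Pool.Agent.Helper65.FC.INVL

theorem main : S_INVL := by
  intro u a ha hu hd
  have ha0 : 0 < ‖a‖ := norm_pos_iff.2 ha
  have hdiff : ∀ z ∈ ball (0 : ℂ) 1, DifferentiableAt ℂ u z := fun z hz =>
    hu.differentiableAt (isOpen_ball.mem_nhds hz)
  have hlip : ∀ x ∈ ball (0 : ℂ) 1, ∀ y ∈ ball (0 : ℂ) 1,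
      ‖u x - u y - a * (x - y)‖ ≤ ‖a‖ / 4 * ‖x - y‖ := by
    intro x hx y hy
    have h1 := (convex_ball (0 : ℂ) 1).norm_image_sub_le_of_norm_hasDerivWithin_le
      (f := fun z => u z - a * z) (f' := fun z => deriv u z - a) (C := ‖a‖ / 4)
      (fun z hz => by
        have h2 := ((hdiff z hz).hasDerivAt.sub ((hasDerivAt_id z).const_mul a)).hasDerivWithinAt
          (s := ball (0 : ℂ) 1)
        rw [mul_one] at h2
        exact h2) hd hy hx
    have h2 : u x - a * x - (u y - a * y) = u x - u y - a * (x - y) := by ring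
    rw [← h2]
    exact h1
  have hanti : ∀ x ∈ ball (0 : ℂ) 1, ∀ y ∈ ball (0 : ℂ) 1,
      3 / 4 * ‖a‖ * ‖x - y‖ ≤ ‖u x - u y‖ := by
    intro x hx y hy
    have h1 := hlip x hx y hy
    have h2 : ‖a * (x - y)‖ ≤ ‖u x - u y‖ + ‖u x - u y - a * (x - y)‖ := by
      have h3 : a * (x - y) = (u x - u y) - (u x - u y - a * (x - y)) := by ring
      calc ‖a * (x - y)‖ = ‖(u x - u y) - (u x - u y - a * (x - y))‖ := by rw [← h3]
        _ ≤ _ := norm_sub_le _ _
    rw [norm_mul] at h2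
    linarith
  let f' : ℂ →L[ℂ] ℂ := a • ContinuousLinearMap.id ℂ ℂ
  let c : NNReal := ⟨‖a‖ / 4, by positivity⟩
  have happ : ApproximatesLinearOn u f' (ball 0 1) c := by
    intro x hx y hy
    exact hlip x hx y hy
  let fs : f'.NonlinearRightInverse :=
    { toFun := fun y => a⁻¹ * y
      nnnorm := ‖a‖₊⁻¹
      bound' := fun y => by
        rw [norm_mul, norm_inv]
        simp
      right_inv' := fun y => by
        show a • (a⁻¹ * y) = y
        rw [smul_eq_mul, mul_inv_cancel_left₀ ha] }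
  have hsurj := happ.surjOn_closedBall_of_nonlinearRightInverse fs (ε := 1 / 3) (b := 0)
    (by norm_num) (by
      intro z hz
      rw [mem_closedBall] at hz
      rw [mem_ball]
      linarith)
  have hrad : ((fs.nnnorm : ℝ)⁻¹ - c) * (1 / 3) = ‖a‖ / 4 := by
    show (((‖a‖₊⁻¹ : NNReal) : ℝ)⁻¹ - ‖a‖ / 4) * (1 / 3) = ‖a‖ / 4
    rw [NNReal.coe_inv, inv_inv, coe_nnnorm]
    ring
  rw [hrad] at hsurj
  have hex : ∀ w : ℂ, ∃ z : ℂ, w ∈ ball (u 0) (‖a‖ / 4) → z ∈ closedBall (0 : ℂ) (1 / 3) ∧ u z = w := by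
    intro w
    by_cases hw : w ∈ ball (u 0) (‖a‖ / 4)
    · obtain ⟨z, hz, hzw⟩ := hsurj (ball_subset_closedBall hw)
      exact ⟨z, fun _ => ⟨hz, hzw⟩⟩
    · exact ⟨0, fun h => absurd h hw⟩
  choose v hv using hex
  have hmap : ∀ w ∈ ball (u 0) (‖a‖ / 4), v w ∈ ball (0 : ℂ) 1 := by
    intro w hw
    have h1 := (hv w hw).1
    rw [mem_closedBall] at h1
    rw [mem_ball]
    linarith
  refine ⟨v, ?_, hmap, fun w hw => (hv w hw).2⟩
  intro w hw
  apply DifferentiableAt.differentiableWithinAt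
  have hz := hmap w hw
  have hcont : ContinuousAt v w := by
    rw [Metric.continuousAt_iff]
    intro ε hε
    obtain ⟨δ, hδ, hb⟩ := Metric.isOpen_iff.1 isOpen_ball w hw
    refine ⟨min δ (3 / 4 * ‖a‖ * ε), lt_min hδ (by positivity), fun {w'} hw' => ?_⟩
    have h1 : w' ∈ ball (u 0) (‖a‖ / 4) := hb (lt_of_lt_of_le hw' (min_le_left _ _))
    have h2 := hanti _ (hmap w' h1) _ hz
    rw [(hv w' h1).2, (hv w hw).2, ← dist_eq_norm, ← dist_eq_norm] at h2
    have h3 := lt_of_lt_of_le hw' (min_le_right _ _)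
    have h4 : 3 / 4 * ‖a‖ * dist (v w') (v w) < 3 / 4 * ‖a‖ * ε := lt_of_le_of_lt h2 h3
    exact lt_of_mul_lt_mul_left h4 (by positivity)
  have hne : deriv u (v w) ≠ 0 := by
    intro h0
    have h1 := hd _ hz
    rw [h0, zero_sub, norm_neg] at h1
    linarith
  exact (HasDerivAt.of_local_left_inverse hcont (hdiff _ hz).hasDerivAt hne
    (Filter.mem_of_superset (isOpen_ball.mem_nhds hw) fun w' hw' => (hv w' hw').2)).differentiableAt

end Pool.Agent.Helper65.FC.INVL
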