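import Pool.Agent.Helper65.FC.Stm

/-!
# Module LFF: finitely many entire lifts (helper15)
-/

set_option autoImplicit false

open Filter Topology Metric MvPolynomial Set LinearAlgebra.Projectivization

namespace Pool.Agent.Helper65.FC.LFF

open Pool.Agent.W602.GT Pool.Agent.N155.BB Pool.Agent.Y190.OP Pool.Agent.N155
  Pool.Agent.N155.GD Pool.Agent.Helper65.BF Pool.Agent.Helper65.GG

theorem main (hP : S_PIG) : S_LFF := by
  intro m n T T' P hF g
  by_contra hinf
  have hinf' : {G : ℂ → Mat (m + 1) | CvOn T univ G ∧ ∀ z, P (G z) = g z}.Infinite := hinf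
  let G : ℕ → ℂ → Mat (m + 1) := fun k => (hinf'.natEmbedding _ k : ℂ → Mat (m + 1))
  have hGm : ∀ k, CvOn T univ (G k) ∧ ∀ z, P (G k z) = g z := fun k =>
    (hinf'.natEmbedding _ k).2
  obtain ⟨K, hK⟩ := hP m univ G isOpen_univ isPreconnected_univ ⟨0, mem_univ _⟩
    (fun k => (hGm k).1.1) (fun z _ => (hF.fin (g z)).subset (by
      rintro x ⟨k, rfl⟩
      exact ⟨(hGm k).1.2 z (mem_univ _), (hGm k).2 z⟩))
  obtain ⟨j, hj, hjk⟩ := hK (K.sup id + 1)
  have hlt : j < K.sup id + 1 := Nat.lt_succ_of_le (Finset.le_sup (f := id) hj)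
  have h1 : G (K.sup id + 1) = G j := funext fun z => hjk z (mem_univ _)
  have h2 : K.sup id + 1 = j := (hinf'.natEmbedding _).injective (Subtype.ext h1)
  omega

end Pool.Agent.Helper65.FC.LFF
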