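import Pool.Agent.Helper65.FC.Stm

/-!
# Module LFT: an entire lift of a doubly periodic curve is doubly periodic (helper15)
-/

set_option autoImplicit false

open Filter Topology Metric MvPolynomial Set LinearAlgebra.Projectivization

namespace Pool.Agent.Helper65.FC.LFT

open Pool.Agent.W602.GT Pool.Agent.N155.BB Pool.Agent.Y190.OP Pool.Agent.N155
  Pool.Agent.N155.GD Pool.Agent.Helper65.BF Pool.Agent.Helper65.GG

theorem period (hP : S_PIG) {m n : ℕ} {T : Set (Mat (m + 1))} {T' : Set (Mat (n + 1))}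
    {P : Mat (m + 1) → Mat (n + 1)} (hF : FinMap T T' P) {g : ℂ → Mat (n + 1)} {p : ℂ}
    (hp : ∀ z, g (z + p) = g z) {G : ℂ → Mat (m + 1)} (hG : CvOn T univ G)
    (hPG : ∀ z, P (G z) = g z) : ∃ d : ℕ, 1 ≤ d ∧ ∀ z, G (z + d * p) = G z := by
  have hk : ∀ (k : ℕ) (z : ℂ), g (z + k * p) = g z := by
    intro k
    induction k with
    | zero => intro z; simp
    | succ k ih =>
      intro z
      have h1 : z + ((k + 1 : ℕ) : ℂ) * p = (z + k * p) + p := by push_cast; ring
      rw [h1, hp, ih]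
  obtain ⟨K, hK⟩ := hP m univ (fun k z => G (z + k * p)) isOpen_univ isPreconnected_univ
    ⟨0, mem_univ _⟩ (fun k => (CvOn.comp hG (V := univ) isOpen_univ (ψ := fun z => z + (k : ℂ) * p)
      (by fun_prop) (fun _ _ => mem_univ _)).1) (fun z _ => (hF.fin (g z)).subset (by
        rintro x ⟨k, rfl⟩
        exact ⟨hG.2 _ (mem_univ _), (hPG _).trans (hk k z)⟩))
  obtain ⟨j, hj, hjk⟩ := hK (K.sup id + 1)
  have hlt : j < K.sup id + 1 := Nat.lt_succ_of_le (Finset.le_sup (f := id) hj)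
  refine ⟨K.sup id + 1 - j, by omega, ?_⟩
  intro z
  have h1 := hjk (z - j * p) (mem_univ _)
  have h2 : z - j * p + j * p = z := by ring
  have h3 : z - j * p + ((K.sup id + 1 : ℕ) : ℂ) * p = z + ((K.sup id + 1 - j : ℕ) : ℂ) * p := by
    rw [Nat.cast_sub hlt.le]
    ring
  simp only [h2, h3] at h1
  exact h1

theorem main (hP : S_PIG) : S_LFT := by
  intro m n T T' P hF g p q hpq hp hq G hG hPG
  obtain ⟨d, hd, hd'⟩ := period hP hF hp hG hPG
  obtain ⟨e, he, he'⟩ := period hP hF hq hG hPG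
  refine ⟨d * p, e * q, ?_, hd', he'⟩
  rw [LinearIndependent.pair_iff] at hpq ⊢
  intro s t hst
  have h1 : (s * (d : ℝ)) • p + (t * (e : ℝ)) • q = 0 := by
    rw [← hst]
    simp only [Complex.real_smul]
    push_cast
    ring
  obtain ⟨h2, h3⟩ := hpq _ _ h1
  have hd0 : (d : ℝ) ≠ 0 := by positivity
  have he0 : (e : ℝ) ≠ 0 := by positivity
  exact ⟨(mul_eq_zero.1 h2).resolve_right hd0, (mul_eq_zero.1 h3).resolve_right he0⟩

end Pool.Agent.Helper65.FC.LFT
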