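import Pool.Agent.Helper65.FC.Stm

/-!
# PIG: the pigeonhole principle for curves (project FC of helper65; module by helper11)
-/

set_option autoImplicit false

open Filter Topology Set

namespace Pool.Agent.Helper65.FC.PIG

open Pool.Agent.W602.GT Pool.Agent.N155.BB Pool.Agent.Y190.OP Pool.Agent.N155
  Pool.Agent.N155.GD Pool.Agent.Helper65.BF Pool.Agent.Helper65.GG

/-- a nonempty open set of complex numbers is not countable -/
theorem not_countable {U : Set ℂ} (hU : IsOpen U) (hne : U.Nonempty) : ¬ U.Countable := by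
  intro h
  have h1 := hU.measure_pos MeasureTheory.volume hne
  rw [h.measure_zero MeasureTheory.volume] at h1
  exact lt_irrefl _ h1

theorem main (h : S_UNC) : S_PIG := by
  classical
  intro m U G hU hUc hne hG hfin
  -- a point at which different curves have different values
  have h1 : ∃ z ∈ U, ∀ k j, G k z = G j z → ∀ w ∈ U, G k w = G j w := by
    by_contra hno
    refine not_countable hU hne ?_
    have h2 : U ⊆ ⋃ q : {q : ℕ × ℕ // ¬ ∀ w ∈ U, G q.1 w = G q.2 w},
        {z | z ∈ U ∧ G q.1.1 z = G q.1.2 z} := by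
      intro z hz
      by_contra hz'
      refine hno ⟨z, hz, fun k j hkj => ?_⟩
      by_contra hne'
      exact hz' (mem_iUnion.2 ⟨⟨(k, j), hne'⟩, hz, hkj⟩)
    refine Countable.mono h2 (countable_iUnion fun q => ?_)
    by_contra hq
    exact q.2 (h m U (G q.1.1) (G q.1.2) hU hUc (hG _) (hG _) hq)
  obtain ⟨z, hz, hz1⟩ := h1
  have hS := hfin z hz
  refine ⟨hS.toFinset.image (Function.invFun fun k => G k z), fun k => ?_⟩
  refine ⟨Function.invFun (fun k => G k z) (G k z), ?_, ?_⟩
  · refine Finset.mem_image_of_mem _ ?_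
    rw [Finite.mem_toFinset]
    exact mem_range_self k
  · refine hz1 _ _ ?_
    have h3 : (fun k => G k z) (Function.invFun (fun k => G k z) (G k z)) = G k z :=
      Function.invFun_eq (f := fun k => G k z) ⟨k, rfl⟩
    exact h3.symm

end Pool.Agent.Helper65.FC.PIG
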