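import Pool.Agent.Helper65.FC.Stm

/-!
Module POLA (helper40): polynomial maps of projective sets, elementary part.
-/

set_option autoImplicit false

open Filter Topology Metric MvPolynomial Set LinearAlgebra.Projectivization

namespace Pool.Agent.Helper65.FC.POLA

open Pool.Agent.W602.GT Pool.Agent.N155.BB Pool.Agent.Y190.OP Pool.Agent.N155
  Pool.Agent.N155.GD Pool.Agent.Helper65.BF Pool.Agent.Helper65.GG

variable {m n e : ℕ} {G : Fin (n + 1) → MvPolynomial (Fin (m + 1)) ℂ}
  {Y : Set (Fin (m + 1) → ℂ)} {W : Set (Fin (n + 1) → ℂ)}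

theorem eval_hom (hF : Forms e G Y W) (c : ℂ) (y : Fin (m + 1) → ℂ) :
    (fun i => eval (c • y) (G i)) = c ^ e • fun i => eval y (G i) := by
  funext i
  rw [eval_smul (hF.hom i), Pi.smul_apply, smul_eq_mul]

theorem PG_Phi (hF : Forms e G Y W) {y : Fin (m + 1) → ℂ} (hy : y ≠ 0) :
    PG G (Phi y) = Phi fun i => eval y (G i) := by
  unfold PG
  rw [toProj_Phi hy]
  obtain ⟨c, hc⟩ := Projectivization.exists_smul_eq_mk_rep ℂ y hy
  rw [← hc, Units.smul_def, eval_hom hF]
  exact Phi_smul (pow_ne_zero _ c.ne_zero) _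

theorem mem_Y (hF : Forms e G Y W) {u : Fin (m + 1) → ℂ} (hu : u ≠ 0) :
    Phi u ∈ Phi '' Y ↔ u ∈ Y := by
  constructor
  · rintro ⟨v, hv, hvu⟩
    obtain ⟨c, hc, rfl⟩ := Phi_inj (hF.ne v hv) hu hvu
    exact hF.cone.smul v hv c hc
  · intro h
    exact ⟨u, h, rfl⟩

theorem main : S_POLA := by
  intro m n e G Y W hF
  refine ⟨fun y hy => PG_Phi hF (hF.ne y hy), ?_, ?_⟩
  · intro U φ hU hφ
    refine ⟨?_, ?_⟩
    · intro z hz
      obtain ⟨V, F, hV, hzV, hd, hVF⟩ := hφ.1 z hz
      refine ⟨V ∩ U, fun w i => eval (F w) (G i), hV.inter hU, ⟨hzV, hz⟩, ?_, ?_⟩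
      · rw [differentiableOn_pi]
        intro i
        have hd' : DifferentiableOn ℂ F (V ∩ U) := hd.mono inter_subset_left
        have h1 : ∀ P : MvPolynomial (Fin (m + 1)) ℂ,
            DifferentiableOn ℂ (fun w => eval (F w) P) (V ∩ U) := by
          intro P
          induction P using MvPolynomial.induction_on with
          | C a => simp only [eval_C]; exact differentiableOn_const _
          | add p q hp hq => simp only [map_add]; exact hp.add hq
          | mul_X p j hp =>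
            simp only [map_mul, eval_X]
            exact hp.mul (differentiableOn_pi.1 hd' j)
        exact h1 (G i)
      · rintro w ⟨hwV, hwU⟩
        obtain ⟨h1, h2⟩ := hVF w hwV
        have h3 : F w ∈ Y := by
          rw [← mem_Y hF h1, ← h2]
          exact hφ.2 w hwU
        refine ⟨hF.ne' _ (hF.maps _ h3), ?_⟩
        show PG G (φ w) = _
        rw [h2, PG_Phi hF h1]
    · intro w hw
      obtain ⟨y, hy, h⟩ := hφ.2 w hw
      show PG G (φ w) ∈ _
      rw [← h, PG_Phi hF (hF.ne y hy)]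
      exact ⟨_, hF.maps y hy, rfl⟩
  · intro M
    by_cases hM : ∃ x0 : Fin (n + 1) → ℂ, x0 ≠ 0 ∧ M = Phi x0
    · obtain ⟨x0, hx0, rfl⟩ := hM
      refine ((hF.fib x0).image fun p => Phi p.rep).subset ?_
      rintro x ⟨⟨y, hy, rfl⟩, hx⟩
      have hy0 := hF.ne y hy
      obtain ⟨c, hc⟩ := Projectivization.exists_smul_eq_mk_rep ℂ y hy0
      have hrY : (Projectivization.mk ℂ y hy0).rep ∈ Y := by
        rw [← hc]
        exact hF.cone.smul y hy _ c.ne_zero
      refine ⟨Projectivization.mk ℂ y hy0, ⟨hrY, ?_⟩, Phi_rep_mk hy0⟩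
      have h1 : PG G (Phi (Projectivization.mk ℂ y hy0).rep) = Phi x0 := by
        rw [Phi_rep_mk hy0]
        exact hx
      rw [PG_Phi hF (hF.ne _ hrY)] at h1
      obtain ⟨c', -, h2⟩ := Phi_inj hx0 (hF.ne' _ (hF.maps _ hrY)) h1.symm
      exact ⟨c', h2⟩
    · have : {x | x ∈ Phi '' Y ∧ PG G x = M} = ∅ := by
        rw [eq_empty_iff_forall_notMem]
        rintro x ⟨⟨y, hy, rfl⟩, hx⟩
        rw [PG_Phi hF (hF.ne y hy)] at hx
        exact hM ⟨_, hF.ne' _ (hF.maps y hy), hx.symm⟩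
      rw [this]
      exact finite_empty

end Pool.Agent.Helper65.FC.POLA
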