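import Pool.Agent.Helper65.FC.POLA

/-!
Module POLB (helper40): polynomial maps of projective sets, bound for the derivative.
-/

set_option autoImplicit false

open Filter Topology Metric MvPolynomial Set LinearAlgebra.Projectivization

namespace Pool.Agent.Helper65.FC.POLB

open Pool.Agent.W602.GT Pool.Agent.N155.BB Pool.Agent.Y190.OP Pool.Agent.N155
  Pool.Agent.N155.GD Pool.Agent.Helper65.BF Pool.Agent.Helper65.GG

variable {m n e : ℕ} {G : Fin (n + 1) → MvPolynomial (Fin (m + 1)) ℂ}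
  {Y : Set (Fin (m + 1) → ℂ)} {W : Set (Fin (n + 1) → ℂ)}

theorem compact_Y (hF : Forms e G Y W) : IsCompact (Phi '' Y) := by
  set S : Set (Fin (m + 1) → ℂ) := sphere 0 1 ∩ insert 0 Y with hS
  have hSc : IsCompact S := (isCompact_sphere 0 1).inter_right hF.cone.closed
  have hne : ∀ u ∈ S, u ≠ 0 := by
    rintro u ⟨hu, -⟩ rfl
    rw [mem_sphere, dist_self] at hu
    exact zero_ne_one hu
  have himg : Phi '' Y = Phi '' S := by
    ext M
    constructor
    · rintro ⟨u, hu, rfl⟩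
      have hn : (‖u‖ : ℂ) ≠ 0 := by
        have := norm_pos_iff.2 (hF.ne u hu)
        exact_mod_cast this.ne'
      refine ⟨(‖u‖ : ℂ)⁻¹ • u, ⟨?_, Or.inr (hF.cone.smul u hu _ (inv_ne_zero hn))⟩,
        Phi_smul (inv_ne_zero hn) u⟩
      rw [mem_sphere, dist_zero_right, norm_smul, norm_inv, Complex.norm_real, norm_norm]
      exact inv_mul_cancel₀ (by exact_mod_cast hn)
    · rintro ⟨u, hu, rfl⟩
      exact ⟨u, hu.2.resolve_left (hne u hu), rfl⟩
  rw [himg]
  exact hSc.image_of_continuousOn fun u hu => (continuousAt_Phi (hne u hu)).continuousWithinAt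

/-- the map in a chart -/
noncomputable def QG (G : Fin (n + 1) → MvPolynomial (Fin (m + 1)) ℂ) (j : Fin (m + 1))
    (M : Mat (m + 1)) : Mat (n + 1) := Phi fun i => eval (chart j M) (G i)

theorem contDiffAt_chart {j : Fin (m + 1)} {M : Mat (m + 1)} (hj : M j j ≠ 0) :
    ContDiffAt ℝ 1 (chart j) M := by
  rw [contDiffAt_pi]
  intro k
  have h : ∀ a b : Fin (m + 1), ContDiffAt ℝ 1 (fun M : Mat (m + 1) => M a b) M := by
    intro a b
    have h1 : ContDiff ℝ 1 (fun M : Mat (m + 1) => M a) :=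
      (ContinuousLinearMap.proj (R := ℝ) (φ := fun _ : Fin (m + 1) => Fin (m + 1) → ℂ) a).contDiff
    have h2 : ContDiff ℝ 1 (fun v : Fin (m + 1) → ℂ => v b) :=
      (ContinuousLinearMap.proj (R := ℝ) (φ := fun _ : Fin (m + 1) => ℂ) b).contDiff
    exact (h2.comp h1).contDiffAt
  unfold chart
  simp only [div_eq_mul_inv]
  exact (h k j).mul ((h j j).inv hj)

theorem contDiffAt_QG {j : Fin (m + 1)} {M : Mat (m + 1)} (hj : M j j ≠ 0)
    (h0 : (fun i => eval (chart j M) (G i)) ≠ 0) : ContDiffAt ℝ 1 (QG G j) M := by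
  have h1 : ContDiffAt ℝ 1 (fun (y : Fin (m + 1) → ℂ) i => eval y (G i)) (chart j M) := by
    rw [contDiffAt_pi]
    intro i
    have h2 : ∀ P : MvPolynomial (Fin (m + 1)) ℂ, ContDiff ℝ 1 (fun y => eval y P) := by
      intro P
      induction P using MvPolynomial.induction_on with
      | C a => simp only [eval_C]; exact contDiff_const
      | add p q hp hq => simp only [map_add]; exact hp.add hq
      | mul_X p j hp =>
        simp only [map_mul, eval_X]
        exact hp.mul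
          (ContinuousLinearMap.proj (R := ℝ) (φ := fun _ : Fin (m + 1) => ℂ) j).contDiff
    exact (h2 (G i)).contDiffAt
  exact (ContDiffAt.comp (M) (contDiffAt_Phi h0) (h1.comp M (contDiffAt_chart hj)) :)

theorem chart_mem (hF : Forms e G Y W) {j : Fin (m + 1)} {M : Mat (m + 1)} (hM : M ∈ Phi '' Y)
    (hj : M j j ≠ 0) : chart j M ∈ Y := by
  obtain ⟨y, hy, rfl⟩ := hM
  have hy0 := hF.ne y hy
  have hyj : y j ≠ 0 := (Phi_diag_ne hy0).1 hj
  rw [chart_Phi hy0 hyj]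
  exact hF.cone.smul y hy _ (inv_ne_zero hyj)

theorem PG_eq (hF : Forms e G Y W) {j : Fin (m + 1)} {M : Mat (m + 1)} (hM : M ∈ Phi '' Y)
    (hj : M j j ≠ 0) : PG G M = QG G j M := by
  have hPM : M ∈ PM := by
    obtain ⟨y, hy, rfl⟩ := hM
    exact ⟨y, hF.ne y hy, rfl⟩
  have h1 := PM.Phi_chart hPM hj
  have h2 := POLA.PG_Phi hF (hF.ne _ (chart_mem hF hM hj))
  rw [h1] at h2
  exact h2

theorem exists_diag (hF : Forms e G Y W) {M : Mat (m + 1)} (hM : M ∈ Phi '' Y) :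
    ∃ j, M j j ≠ 0 := by
  have hPM : M ∈ PM := by
    obtain ⟨y, hy, rfl⟩ := hM
    exact ⟨y, hF.ne y hy, rfl⟩
  exact PM.exists_diag hPM

theorem main (_ : S_POLA) : S_POLB := by
  intro m n e G Y W hF
  have hcd : ∀ M ∈ Phi '' Y, ∀ j, M j j ≠ 0 → ContDiffAt ℝ 1 (QG G j) M := fun M hM j hj =>
    contDiffAt_QG hj (hF.ne' _ (hF.maps _ (chart_mem hF hM hj)))
  have hev : ∀ (M : Mat (m + 1)) (j : Fin (m + 1)), M j j ≠ 0 → ∀ᶠ M' in 𝓝 M, M' j j ≠ 0 :=
    fun M j hj => (continuous_apply_apply j j).continuousAt.eventually_ne hj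
  refine ⟨?_, ?_⟩
  · intro M hM
    obtain ⟨j, hj⟩ := exists_diag hF hM
    refine ((hcd M hM j hj).continuousAt.continuousWithinAt).congr_of_eventuallyEq ?_
      (PG_eq hF hM hj)
    filter_upwards [self_mem_nhdsWithin, mem_nhdsWithin_of_mem_nhds (hev M j hj)] with M' h1 h2
    exact PG_eq hF h1 h2
  · have key : ∃ A : ℝ, 0 < A ∧ ∀ M ∈ Phi '' Y, ∃ j, M j j ≠ 0 ∧ ‖fderiv ℝ (QG G j) M‖ ≤ A := by
      refine (compact_Y hF).induction_on
        (p := fun s => ∃ A : ℝ, 0 < A ∧ ∀ M ∈ s ∩ Phi '' Y, ∃ j, M j j ≠ 0 ∧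
          ‖fderiv ℝ (QG G j) M‖ ≤ A) ?_ ?_ ?_ ?_ |>.imp fun A hA =>
            ⟨hA.1, fun M hM => hA.2 M ⟨hM, hM⟩⟩
      · exact ⟨1, one_pos, fun M hM => hM.1.elim⟩
      · rintro s t hst ⟨A, hA, h⟩
        exact ⟨A, hA, fun M hM => h M ⟨hst hM.1, hM.2⟩⟩
      · rintro s t ⟨A, hA, h⟩ ⟨B, hB, h'⟩
        refine ⟨max A B, lt_max_of_lt_left hA, ?_⟩
        rintro M ⟨hM | hM, hM'⟩
        · obtain ⟨j, h1, h2⟩ := h M ⟨hM, hM'⟩
          exact ⟨j, h1, h2.trans (le_max_left _ _)⟩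
        · obtain ⟨j, h1, h2⟩ := h' M ⟨hM, hM'⟩
          exact ⟨j, h1, h2.trans (le_max_right _ _)⟩
      · intro M hM
        obtain ⟨j, hj⟩ := exists_diag hF hM
        have h1 : ContinuousAt (fderiv ℝ (QG G j)) M :=
          ((hcd M hM j hj).fderiv_right (m := 0) (by norm_num)).continuousAt
        have h2 : ∀ᶠ M' in 𝓝 M, ‖fderiv ℝ (QG G j) M'‖ < ‖fderiv ℝ (QG G j) M‖ + 1 :=
          h1.norm.eventually_lt_const (lt_add_one _)
        refine ⟨{M' | M' j j ≠ 0 ∧ ‖fderiv ℝ (QG G j) M'‖ < ‖fderiv ℝ (QG G j) M‖ + 1},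
          mem_nhdsWithin_of_mem_nhds ((hev M j hj).and h2), ‖fderiv ℝ (QG G j) M‖ + 1,
          by positivity, ?_⟩
        rintro M' ⟨⟨h3, h4⟩, -⟩
        exact ⟨j, h3, h4.le⟩
    obtain ⟨A, hA, h⟩ := key
    refine ⟨A, hA, ?_⟩
    intro U φ hU hφ z hz
    obtain ⟨j, hj, hb⟩ := h (φ z) (hφ.2 z hz)
    have hdφ : DifferentiableAt ℝ φ z := (hφ.1.contDiffAt hz).differentiableAt (by norm_num)
    have hdQ : DifferentiableAt ℝ (QG G j) (φ z) :=
      (hcd _ (hφ.2 z hz) j hj).differentiableAt (by norm_num)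
    have h1 : (fun w => PG G (φ w)) =ᶠ[𝓝 z] fun w => QG G j (φ w) := by
      filter_upwards [hU.mem_nhds hz, hdφ.continuousAt.eventually (hev (φ z) j hj)] with w hw hw'
      exact PG_eq hF (hφ.2 w hw) hw'
    rw [h1.fderiv_eq]
    have h2 : fderiv ℝ (fun w => QG G j (φ w)) z =
        (fderiv ℝ (QG G j) (φ z)).comp (fderiv ℝ φ z) :=
      fderiv_comp z hdQ hdφ
    rw [h2]
    exact (ContinuousLinearMap.opNorm_comp_le _ _).trans
      (mul_le_mul_of_nonneg_right hb (norm_nonneg _))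

end Pool.Agent.Helper65.FC.POLB
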