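import Pool.Agent.Helper65.FC.Stm

/-!
FC, module RSC: Brody's reparametrization of an entire curve, with its limit (helper60)
-/

set_option autoImplicit false

open Filter Topology Metric MvPolynomial Set LinearAlgebra.Projectivization

namespace Pool.Agent.Helper65.FC.RSC

open Pool.Agent.W602.GT Pool.Agent.N155.BB Pool.Agent.Y190.OP Pool.Agent.N155
  Pool.Agent.N155.GD Pool.Agent.Helper65.BF Pool.Agent.Helper65.GG

theorem main : S_RSC := by
  intro m T φ hT hTP hφ ⟨z0, hz0⟩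
  have hD : 0 < ‖fderiv ℝ φ z0‖ := norm_pos_iff.2 hz0
  set D := ‖fderiv ℝ φ z0‖ with hDdef
  let L : ℕ → ℝ := fun k => (2 * (k + 1 : ℝ) + 1) / D
  have hL : ∀ k, 0 < L k := fun k => by positivity
  have hLD : ∀ k, L k * D = 2 * (k + 1 : ℝ) + 1 := fun k => div_mul_cancel₀ _ hD.ne'
  have hΨ : ∀ k : ℕ, CvOn T (ball 0 1) (fun z => φ (aff z0 (L k) z)) := fun k =>
    hφ.comp isOpen_ball (by
      unfold aff
      fun_prop) (mapsTo_univ _ _)
  have hbig : ∀ k : ℕ, 2 * (k + 1 : ℝ) < ‖fderiv ℝ (fun z => φ (aff z0 (L k) z)) 0‖ := by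
    intro k
    have h1 : aff z0 (L k) 0 = z0 := by simp [aff]
    have h2 := norm_fderiv_aff (Ψ := φ) (a := z0) (ρ := L k) (hL k).le (z := 0) (by
      rw [h1]; exact hφ.1.differentiableAt (mem_univ _))
    rw [h1] at h2
    rw [h2, ← hDdef, hLD]
    linarith
  have h2 := fun k : ℕ => rescale' (M := (k + 1 : ℝ)) (by positivity) (hΨ k) (hbig k)
  choose a ρ hρ hρ' hmaps hd h0 using h2
  have heq : ∀ k : ℕ, (fun z : ℂ => φ (aff z0 (L k) (aff (a k) (ρ k) z))) =
      fun ζ : ℂ => φ ((z0 + L k * a k) + ((L k * ρ k : ℝ) : ℂ) * ζ) := by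
    intro k
    funext z
    congr 1
    unfold aff
    push_cast
    ring
  obtain ⟨H, hH, hC, -, hlim⟩ := limit_growing hT hTP
    (h := fun (k : ℕ) (ζ : ℂ) => φ ((z0 + L k * a k) + ((L k * ρ k : ℝ) : ℂ) * ζ))
    (fun k => hφ.comp isOpen_ball (by fun_prop) (mapsTo_univ _ _))
    (fun k => by
      rw [← heq k]
      exact hd k)
  refine ⟨fun k => z0 + L k * a k, fun k => L k * ρ k, H, fun k => mul_pos (hL k) (hρ k),
    fun k => ?_, hH, ?_, hC⟩
  · have h3 := hd k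
    rw [heq k] at h3
    exact h3
  · have h3 := (hlim 0).norm
    have h4 : Tendsto (fun k : ℕ => ‖fderiv ℝ (fun ζ : ℂ =>
        φ ((z0 + L k * a k) + ((L k * ρ k : ℝ) : ℂ) * ζ)) 0‖)
        ((hyperfilter ℕ : Ultrafilter ℕ) : Filter ℕ) (𝓝 1) := by
      have h5 : ∀ k : ℕ, ‖fderiv ℝ (fun ζ : ℂ =>
          φ ((z0 + L k * a k) + ((L k * ρ k : ℝ) : ℂ) * ζ)) 0‖ = 1 := by
        intro k
        rw [← heq k]
        exact h0 k
      simp only [h5]
      exact tendsto_const_nhds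
    exact tendsto_nhds_unique h3 h4

end Pool.Agent.Helper65.FC.RSC
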