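import Pool.Agent.Helper65.FC.Stm

/-!
# UNC: curves coinciding at uncountably many points are equal (project FC of helper65; module by helper11)
-/

set_option autoImplicit false

open Filter Topology Set

namespace Pool.Agent.Helper65.FC.UNC

open Pool.Agent.W602.GT Pool.Agent.N155.BB Pool.Agent.Y190.OP Pool.Agent.N155
  Pool.Agent.N155.GD Pool.Agent.Helper65.BF Pool.Agent.Helper65.GG

theorem main : S_UNC := by
  intro m U φ ψ hU hUc hφ hψ hE
  have h1 : ∃ z ∈ U, ∃ᶠ w in 𝓝[≠] z, φ w = ψ w := by
    by_contra hno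
    apply hE
    have hd : DiscreteTopology {z | z ∈ U ∧ φ z = ψ z} := by
      rw [discreteTopology_subtype_iff]
      rintro z ⟨hz, _⟩
      rw [inf_principal_eq_bot]
      have h2 : ¬ ∃ᶠ w in 𝓝[≠] z, φ w = ψ w := fun h => hno ⟨z, hz, h⟩
      rw [not_frequently] at h2
      filter_upwards [h2] with w hw hw'
      exact hw hw'.2
    rw [← Set.countable_coe_iff]
    exact TopologicalSpace.separableSpace_iff_countable.1 inferInstance
  obtain ⟨z, hz, hf⟩ := h1
  exact holP_ext_on hU hUc hφ hψ hz (holP_freq hU hφ hψ hz hf)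

end Pool.Agent.Helper65.FC.UNC
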