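import Pool.Agent.Helper65.FC.FIN
import Pool.Agent.Helper65.FC.UNC
import Pool.Agent.Helper65.FC.PIG
import Pool.Agent.Helper65.FC.LFT
import Pool.Agent.Helper65.FC.LFF
import Pool.Agent.Helper65.FC.INVL
import Pool.Agent.Helper65.FC.EST
import Pool.Agent.Helper65.FC.RSC
import Pool.Agent.Helper65.FC.POLA
import Pool.Agent.Helper65.FC.POLB

/-!
Entire curves in projective sets with a finite morphism to a projective manifold with a pseudometric
of nonpositive curvature or with invariant jet differentials: the modules put together.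

The modules were written by helpers 11 (UNC, PIG), 15 (LFT, LFF), 40 (POLA, POLB), 60 (RSC),
65 (ONE, ENT, FIN), 73 (EST) and 93 (INVL).
-/

set_option autoImplicit false

open Filter Topology MvPolynomial LinearAlgebra.Projectivization Pool.Agent.W602.GT
  Pool.Agent.N155 Pool.Agent.N155.BB Pool.Agent.Helper65.GG Pool.Agent.Helper65.NC

namespace Pool.Agent.Helper65.FC

/-- `Y` (without `0`) is the cone over a closed set in projective space, and the forms `G 0, …, G n`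
of degree `e` define a map from this projective set to the projective set with the cone `W` all
whose fibres are finite: a finite morphism, with arbitrary ramification. (Every finite morphism of
projective varieties is of this form for suitable embeddings, with `e = 1`: replace the given
embedding of the target by a Veronese embedding, and embed `Y` by the sections of the pullback of
`O(1)`, which is ample.) -/
structure FiniteMorphism {m n : ℕ} (Y : Set (Fin (m + 1) → ℂ)) (W : Set (Fin (n + 1) → ℂ)) (e : ℕ)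
    (G : Fin (n + 1) → MvPolynomial (Fin (m + 1)) ℂ) : Prop where
  cone : ClosedCone Y
  zero : (0 : Fin (m + 1) → ℂ) ∉ Y
  hom : ∀ i, (G i).IsHomogeneous e
  maps : ∀ y ∈ Y, (fun i => eval y (G i)) ∈ W
  fib : ∀ x : Fin (n + 1) → ℂ, {y : ℙ ℂ (Fin (m + 1) → ℂ) | y.rep ∈ Y ∧
    ∃ c : ℂ, (fun i => eval y.rep (G i)) = c • x}.Finite

variable {m n d e : ℕ} {ι ι' κ' : Type} {F : ι → MvPolynomial (Fin (n + 1)) ℂ}
  {Z : ι' → MvPolynomial (Fin (n + 1)) ℂ}
  {η : κ' → (Fin (n + 1) → ℂ) → (Fin (n + 1) → ℂ) → (Fin (n + 1) → ℂ) → ℂ}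
  {W : Set (Fin (n + 1) → ℂ)} {null : (ℂ → ℙ ℂ (Fin (n + 1) → ℂ)) → Prop}
  {G : Fin (n + 1) → MvPolynomial (Fin (m + 1)) ℂ} {Y : Set (Fin (m + 1) → ℂ)}

theorem FiniteMorphism.forms (h : FiniteMorphism Y W e G) (hWX : W ⊆ Cone F) : Forms e G Y W :=
  ⟨h.cone, fun _ hy h0 => h.zero (h0 ▸ hy), fun _ hx => (hWX hx).1, h.hom, h.maps, h.fib⟩

theorem entire_cover (hX : ProjManifold F d) (hZ : ∀ i, IsForm (Z i))
    (hη : PositiveTwoForms (Cone F) (Cone Z) d η) (hN : NullCurves (Cone F) null)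
    (hW : ClosedCone W) (hWX : W ⊆ Cone F)
    (hnd : ∀ f, CurveIn W f → ∀ C : ℝ, DerBetween 0 C f →
      (null f ∨ CurveIn (Cone Z) f) → ∀ z w, f z = f w) (hG : FiniteMorphism Y W e G) :
    ∃ S : Finset (ℂ → ℙ ℂ (Fin (m + 1) → ℂ)),
      (∀ g ∈ S, CurveIn Y g ∧ DoublyPeriodic g ∧ ¬ ∀ z w, g z = g w) ∧
      (∀ f, CurveIn Y f → (¬ ∀ z w, f z = f w) →
        ∃ g ∈ S, ∃ h : ℂ → ℂ, Differentiable ℂ h ∧ ∀ z, f z = g (h z)) ∧
      (2 ≤ d → ∀ x ∈ Cone F, ∃ P : MvPolynomial (Fin (n + 1)) ℂ, IsForm P ∧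
        (∃ᶠ y in 𝓝 x, y ∈ Cone F ∧ eval y P ≠ 0) ∧
        ∀ g ∈ S, ∀ z, eval (fun i => eval (g z).rep (G i)) P = 0) :=
  FIN.cover UNC.main (ONE.main UNC.main (PIG.main UNC.main) INVL.main EST.main RSC.main)
    (LFT.main (PIG.main UNC.main)) (LFF.main (PIG.main UNC.main)) POLA.main (POLB.main POLA.main)
    hX hZ hη hN hW hWX hnd (hG.forms hWX)

/-- the pulled back form, if the morphism is onto -/
theorem onto_form (hWX : W ⊆ Cone F) (hG : FiniteMorphism Y W e G)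
    (hY : Y.Nonempty) (hon : ∀ x ∈ Cone F, ∃ y ∈ Y, ∃ c : ℂ, x = c • fun i => eval y (G i))
    {S : Finset (ℂ → ℙ ℂ (Fin (m + 1) → ℂ))}
    (h : ∀ x ∈ Cone F, ∃ P : MvPolynomial (Fin (n + 1)) ℂ, IsForm P ∧
        (∃ᶠ y in 𝓝 x, y ∈ Cone F ∧ eval y P ≠ 0) ∧
        ∀ g ∈ S, ∀ z, eval (fun i => eval (g z).rep (G i)) P = 0) :
    ∃ Q : MvPolynomial (Fin (m + 1)) ℂ, IsForm Q ∧ (∃ y ∈ Y, eval y Q ≠ 0) ∧
      ∀ g ∈ S, ∀ z, eval (g z).rep Q = 0 := by
  obtain ⟨y0, hy0⟩ := hY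
  obtain ⟨P, ⟨D, hD⟩, hP2, hP3⟩ := h _ (hWX (hG.maps y0 hy0))
  have he : ∀ y : Fin (m + 1) → ℂ, eval y (aeval G P) = eval (fun i => eval y (G i)) P := fun y => by
    rw [aeval_def, eval₂_comp_left (eval y)]
    have h1 : (eval y).comp (algebraMap ℂ (MvPolynomial (Fin (m + 1)) ℂ)) = RingHom.id ℂ := by
      ext
      simp
    rw [h1]
    rfl
  obtain ⟨x, hx, hxP⟩ := hP2.exists
  obtain ⟨y, hy, c, hc⟩ := hon x hx
  refine ⟨aeval G P, ⟨e * D, hD.aeval G hG.hom⟩, ⟨y, hy, fun h0 => hxP ?_⟩, fun g hg z => ?_⟩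
  · rw [hc, eval_smul hD, ← he, h0, mul_zero]
  · rw [he]
    exact hP3 g hg z

end Pool.Agent.Helper65.FC
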