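import Pool.Agent.Helper65.FC.Stm

/-!
Entire curves over an immersed doubly periodic curve.
-/

set_option autoImplicit false

open Filter Topology Metric MvPolynomial Set LinearAlgebra.Projectivization

namespace Pool.Agent.Helper65.FC.ONE

open Pool.Agent.W602.GT Pool.Agent.N155.BB Pool.Agent.Y190.OP Pool.Agent.N155
  Pool.Agent.N155.GD Pool.Agent.Helper65.BF Pool.Agent.Helper65.GG

theorem low_comp {E : Type*} [NormedAddCommGroup E] [NormedSpace ℝ E] {g : ℂ → E} {u : ℂ → ℂ}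
    {z : ℂ} (hg : DifferentiableAt ℝ g (u z)) (hu : DifferentiableAt ℂ u z) :
    ‖fderiv ℝ g (u z)‖ * ‖deriv u z‖ ≤ ‖fderiv ℝ (fun w => g (u w)) z‖ := by
  set c := deriv u z with hc
  rcases eq_or_ne c 0 with h0 | h0
  · rw [h0, norm_zero, mul_zero]
    exact norm_nonneg _
  have hu' : HasFDerivAt u ((ContinuousLinearMap.toSpanSingleton ℂ c).restrictScalars ℝ) z := by
    have := hu.hasDerivAt.hasFDerivAt
    exact this.restrictScalars ℝ
  have hcomp := hg.hasFDerivAt.comp z hu'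
  have he : fderiv ℝ (fun w => g (u w)) z = (fderiv ℝ g (u z)).comp
      ((ContinuousLinearMap.toSpanSingleton ℂ c).restrictScalars ℝ) := hcomp.fderiv
  have hc0 : 0 < ‖c‖ := norm_pos_iff.2 h0
  rw [← le_div_iff₀ hc0]
  refine ContinuousLinearMap.opNorm_le_bound _ (by positivity) fun v => ?_
  have h1 : fderiv ℝ g (u z) v = fderiv ℝ (fun w => g (u w)) z (v / c) := by
    rw [he]
    simp [ContinuousLinearMap.toSpanSingleton_apply, div_mul_cancel₀ _ h0]
  rw [h1]
  calc ‖fderiv ℝ (fun w => g (u w)) z (v / c)‖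
      ≤ ‖fderiv ℝ (fun w => g (u w)) z‖ * ‖v / c‖ := ContinuousLinearMap.le_opNorm _ _
    _ = ‖fderiv ℝ (fun w => g (u w)) z‖ / ‖c‖ * ‖v‖ := by
        rw [norm_div]
        ring

theorem not_countable_ball {b : ℂ} {s : ℝ} (hs : 0 < s) : ¬ (ball b s).Countable := by
  intro h
  have h1 : Dense (ball b s)ᶜ := h.dense_compl ℝ
  obtain ⟨x, hx, hx'⟩ := h1.inter_open_nonempty _ isOpen_ball ⟨b, mem_ball_self hs⟩
  exact hx' hx

theorem holP_const {m : ℕ} {x : Mat (m + 1)} (hx : x ∈ PM) : HolP univ (fun _ => x) := by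
  obtain ⟨u, hu, rfl⟩ := hx
  intro z _
  exact ⟨univ, fun _ => u, isOpen_univ, mem_univ z, differentiableOn_const _, fun w _ => ⟨hu, rfl⟩⟩

/-- a curve in `T` which is mapped to a point is constant -/
theorem const_of (hU : S_UNC) {m n : ℕ} {T : Set (Mat (m + 1))} {T' : Set (Mat (n + 1))}
    {P : Mat (m + 1) → Mat (n + 1)} (hF : FinMap T T' P) (hTP : T ⊆ PM) {H : ℂ → Mat (m + 1)}
    (hH : CvOn T univ H) {M : Mat (n + 1)} (hM : ∀ z, P (H z) = M) (z : ℂ) :
    fderiv ℝ H z = 0 := by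
  have hfin := hF.fin M
  have h1 : (univ : Set ℂ) = ⋃ x ∈ {x | x ∈ T ∧ P x = M}, {z | z ∈ (univ : Set ℂ) ∧ H z = x} := by
    ext w
    simp only [mem_univ, mem_iUnion, true_and, mem_setOf_eq, true_iff]
    exact ⟨H w, ⟨hH.2 w (mem_univ w), hM w⟩, rfl⟩
  obtain ⟨x, hx, hxc⟩ : ∃ x ∈ {x | x ∈ T ∧ P x = M},
      ¬ {z | z ∈ (univ : Set ℂ) ∧ H z = x}.Countable := by
    by_contra hcon
    push Not at hcon
    apply not_countable_ball (b := 0) (s := 1) one_pos
    refine (Set.Countable.mono (subset_univ _) ?_)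
    rw [h1]
    exact hfin.countable.biUnion hcon
  have h2 := hU m univ H (fun _ => x) isOpen_univ isPreconnected_univ hH.1 (holP_const (hTP hx.1)) hxc
  have h3 : H = fun _ => x := funext fun w => h2 w (mem_univ w)
  rw [h3]
  exact fderiv_const_apply _

theorem main (hU : S_UNC) (hP : S_PIG) (hI : S_INVL) (hE : S_EST) (hR : S_RSC) : S_ONE := by
  classical
  intro m n T T' P hF hT hTP g c0 p q hc0 hg hind hp hq φ h hφ hne hh hPφ
  obtain ⟨α, r, H, hr, hbd, hH, hH1, hcc⟩ := hR m T φ hT hTP hφ hne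
  obtain ⟨A, hA, hlip⟩ := hF.lip
  have hgd : ∀ w, DifferentiableAt ℝ g w := fun w => hg.hol.differentiableAt (mem_univ w)
  have hgc : Continuous g := continuous_iff_continuousAt.2 fun w => (hgd w).continuousAt
  -- the rescaled functions
  have hl := fun k => fund' hind hp hq (h (α k))
  choose l hl1 hl2 using hl
  have hl3 : ∀ k w, g (w - l k) = g w := fun k w => by
    have := hl1 k (w - l k)
    rw [sub_add_cancel] at this
    exact this.symm
  set u : ℕ → ℂ → ℂ := fun k ζ => h (α k + r k * ζ) - l k with hu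
  have haff : ∀ k, Differentiable ℂ fun ζ : ℂ => α k + r k * ζ := fun k => by fun_prop
  have hud : ∀ k, Differentiable ℂ (u k) := fun k => (hh.comp (haff k)).sub_const _
  set φk : ℕ → ℂ → Mat (m + 1) := fun k ζ => φ (α k + r k * ζ) with hφk
  have hφc : ∀ k, CvOn T univ (φk k) := fun k =>
    hφ.comp isOpen_univ (haff k).differentiableOn (mapsTo_univ _ _)
  have hgu : ∀ k ζ, g (u k ζ) = P (φk k ζ) := fun k ζ => by
    rw [hu, hφk]
    simp only
    rw [hl3, hPφ]
  set M : ℝ := 2 * A / c0 with hM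
  have hM0 : 0 ≤ M := by positivity
  have hub : ∀ k : ℕ, ∀ z ∈ ball (0 : ℂ) (((k : ℝ) + 1) / 2), ‖deriv (u k) z‖ ≤ M := by
    intro k z hz
    have h1 := low_comp (g := g) (u := u k) (hgd _) (hud k z)
    have h2 : (fun w => g (u k w)) = fun w => P (φk k w) := funext (hgu k)
    rw [h2] at h1
    have h3 := hlip univ (φk k) isOpen_univ (hφc k) z (mem_univ z)
    have h4 := hbd k z hz
    have h5 := hg.low (u k z)
    rw [hM, le_div_iff₀ hc0]
    calc ‖deriv (u k) z‖ * c0 ≤ ‖deriv (u k) z‖ * ‖fderiv ℝ g (u k z)‖ :=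
          mul_le_mul_of_nonneg_left h5 (norm_nonneg _)
      _ = ‖fderiv ℝ g (u k z)‖ * ‖deriv (u k) z‖ := mul_comm _ _
      _ ≤ _ := h1
      _ ≤ _ := h3
      _ ≤ A * 2 := mul_le_mul_of_nonneg_left h4 hA.le
      _ = 2 * A := mul_comm _ _
  have hest : ∀ (k : ℕ) (R : ℝ), 0 < R → 4 * R ≤ k + 1 → ∀ z ∈ ball (0 : ℂ) R,
      ‖deriv (u k) z - deriv (u k) 0‖ ≤ 8 * M * R / (k + 1) ∧
      ‖u k z - u k 0 - deriv (u k) 0 * z‖ ≤ 8 * M * R ^ 2 / (k + 1) := fun k =>
    hE M k (u k) hM0 (hud k).differentiableOn (hub k)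
  -- limits
  set 𝓤 : Ultrafilter ℕ := hyperfilter ℕ with h𝓤
  have hat : (𝓤 : Filter ℕ) ≤ atTop := by
    rw [← Nat.cofinite_eq_atTop]
    exact hyperfilter_le_cofinite
  have hcof : ∀ R : ℝ, ∀ᶠ k : ℕ in (𝓤 : Filter ℕ), R ≤ k := by
    intro R
    have h2 : ∀ᶠ k : ℕ in atTop, R ≤ k := by
      filter_upwards [eventually_ge_atTop ⌈R⌉₊] with k hk
      exact (Nat.le_ceil R).trans (by exact_mod_cast hk)
    exact hat h2
  have hsmall : ∀ C : ℝ, Tendsto (fun k : ℕ => C / ((k : ℝ) + 1)) (𝓤 : Filter ℕ) (𝓝 0) := fun C =>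
    (tendsto_const_div_atTop_nhds_zero_nat C |>.comp (tendsto_add_atTop_nat 1) |>.congr
      fun k => by simp).mono_left hat
  obtain ⟨a, -, ha⟩ : ∃ a ∈ closedBall (0 : ℂ) M, Tendsto (fun k => deriv (u k) 0) 𝓤 (𝓝 a) := by
    have h1 : (𝓤.map (fun k => deriv (u k) 0) : Filter ℂ) ≤ 𝓟 (closedBall 0 M) := by
      rw [Ultrafilter.coe_map, le_principal_iff, mem_map]
      filter_upwards with k
      exact mem_closedBall_zero_iff.2 (hub k 0 (mem_ball_self (by positivity)))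
    exact (isCompact_closedBall (0 : ℂ) M).ultrafilter_le_nhds _ h1
  obtain ⟨b, -, hb⟩ : ∃ b ∈ closedBall (0 : ℂ) (‖p‖ + ‖q‖), Tendsto (fun k => u k 0) 𝓤 (𝓝 b) := by
    have h1 : (𝓤.map (fun k => u k 0) : Filter ℂ) ≤ 𝓟 (closedBall 0 (‖p‖ + ‖q‖)) := by
      rw [Ultrafilter.coe_map, le_principal_iff, mem_map]
      filter_upwards with k
      refine mem_closedBall_zero_iff.2 ?_
      have := hl2 k
      simpa [hu] using this
    exact (isCompact_closedBall (0 : ℂ) (‖p‖ + ‖q‖)).ultrafilter_le_nhds _ h1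
  have hlimu : ∀ ζ, Tendsto (fun k => u k ζ) 𝓤 (𝓝 (b + a * ζ)) := by
    intro ζ
    have herr : Tendsto (fun k => u k ζ - u k 0 - deriv (u k) 0 * ζ) 𝓤 (𝓝 0) := by
      refine squeeze_zero_norm' ?_ (hsmall (8 * M * (‖ζ‖ + 1) ^ 2))
      filter_upwards [hcof (4 * (‖ζ‖ + 1))] with k hk
      exact (hest k (‖ζ‖ + 1) (by positivity) (by linarith) ζ
        (mem_ball_zero_iff.2 (by linarith))).2
    have h2 := (herr.add hb).add (ha.mul_const ζ)
    rw [zero_add] at h2
    refine h2.congr fun k => ?_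
    ring
  have hlimφ : ∀ ζ, Tendsto (fun k => φk k ζ) 𝓤 (𝓝 (H ζ)) := by
    intro ζ
    have h1 := hcc (‖ζ‖ + 1) (by positivity) ζ (mem_ball_zero_iff.2 (by linarith))
    exact h1.comp (tendsto_id.prodMk tendsto_const_nhds)
  have hPH : ∀ ζ, P (H ζ) = g (b + a * ζ) := by
    intro ζ
    have h1 : Tendsto (fun k => P (φk k ζ)) 𝓤 (𝓝 (P (H ζ))) :=
      (hF.cont (H ζ) (hH.mem ζ)).tendsto.comp (tendsto_nhdsWithin_iff.2
        ⟨hlimφ ζ, Eventually.of_forall fun k => (hφc k).2 ζ (mem_univ ζ)⟩)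
    have h2 : Tendsto (fun k => g (u k ζ)) 𝓤 (𝓝 (g (b + a * ζ))) :=
      (hgc.tendsto _).comp (hlimu ζ)
    exact tendsto_nhds_unique h1 (h2.congr fun k => hgu k ζ)
  have hHc : CvOn T univ H := ⟨hH.hol, fun z _ => hH.mem z⟩
  have ha0 : a ≠ 0 := by
    rintro rfl
    have h1 := const_of hU hF hTP hHc (M := g b) (fun z => by rw [hPH, zero_mul, add_zero]) 0
    rw [h1, norm_zero] at hH1
    exact zero_ne_one hH1
  have hna : 0 < ‖a‖ := norm_pos_iff.2 ha0
  -- the entire lift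
  set Gi : ℂ → Mat (m + 1) := fun w => H ((w - b) / a) with hGi
  have hGic : CvOn T univ Gi :=
    hHc.comp isOpen_univ (Differentiable.differentiableOn (by fun_prop)) (mapsTo_univ _ _)
  have hPGi : ∀ w, P (Gi w) = g w := fun w => by
    rw [hGi]
    simp only
    rw [hPH, mul_div_cancel₀ _ ha0, add_sub_cancel]
  -- the local inverses
  set D : Set ℂ := ball b (‖a‖ / 8) with hD
  let good : ℕ → Prop := fun k => 4 ≤ (k : ℝ) + 1 ∧ ‖deriv (u k) 0 - a‖ ≤ ‖a‖ / 16 ∧
    8 * M / ((k : ℝ) + 1) ≤ ‖a‖ / 16 ∧ ‖u k 0 - b‖ ≤ ‖a‖ / 16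
  have hgood : ∀ᶠ k in (𝓤 : Filter ℕ), good k := by
    have h1 : ∀ᶠ k in (𝓤 : Filter ℕ), ‖deriv (u k) 0 - a‖ ≤ ‖a‖ / 16 := by
      have := (ha.sub_const a).norm
      rw [sub_self, norm_zero] at this
      exact (this.eventually_lt_const (by positivity)).mono fun k hk => hk.le
    have h2 : ∀ᶠ k in (𝓤 : Filter ℕ), ‖u k 0 - b‖ ≤ ‖a‖ / 16 := by
      have := (hb.sub_const b).norm
      rw [sub_self, norm_zero] at this
      exact (this.eventually_lt_const (by positivity)).mono fun k hk => hk.le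
    have h3 : ∀ᶠ k : ℕ in (𝓤 : Filter ℕ), 8 * M / ((k : ℝ) + 1) ≤ ‖a‖ / 16 :=
      ((hsmall (8 * M)).eventually_lt_const (by positivity)).mono fun k hk => hk.le
    filter_upwards [h1, h2, h3, hcof 4] with k hk1 hk2 hk3 hk4
    exact ⟨by linarith, hk1, hk3, hk2⟩
  have hv : ∀ k, ∃ v : ℂ → ℂ, good k → DifferentiableOn ℂ v D ∧ MapsTo v D (ball 0 1) ∧
      ∀ w ∈ D, u k (v w) = w := by
    intro k
    by_cases hk : good k
    · obtain ⟨hk1, hk2, hk3, hk4⟩ := hk
      have h1 : ‖a‖ * (15 / 16) ≤ ‖deriv (u k) 0‖ := by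
        have h2 : ‖a‖ ≤ ‖deriv (u k) 0‖ + ‖deriv (u k) 0 - a‖ := by
          have := norm_sub_norm_le a (deriv (u k) 0)
          rw [norm_sub_rev] at this
          linarith
        linarith
      have h0 : deriv (u k) 0 ≠ 0 := by
        rw [← norm_pos_iff]
        have : 0 < ‖a‖ * (15 / 16) := by positivity
        linarith
      obtain ⟨v, hv1, hv2, hv3⟩ := hI (u k) (deriv (u k) 0) h0 (hud k).differentiableOn
        fun z hz => by
          have h3 := (hest k 1 one_pos (by linarith) z hz).1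
          rw [mul_one] at h3
          linarith
      have hsub : D ⊆ ball (u k 0) (‖deriv (u k) 0‖ / 4) := by
        intro w hw
        rw [hD, mem_ball, dist_eq_norm] at hw
        rw [mem_ball, dist_eq_norm]
        have h4 : ‖w - u k 0‖ ≤ ‖w - b‖ + ‖u k 0 - b‖ := by
          have : w - u k 0 = (w - b) - (u k 0 - b) := by ring
          rw [this]
          exact norm_sub_le _ _
        linarith
      exact ⟨v, fun _ => ⟨hv1.mono hsub, hv2.mono_left hsub, fun w hw => hv3 w (hsub hw)⟩⟩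
    · exact ⟨fun _ => 0, fun h => absurd h hk⟩
  choose v hv using hv
  set Gk : ℕ → ℂ → Mat (m + 1) := fun k => if good k then fun w => φk k (v k w) else Gi with hGk
  have hDo : IsOpen D := isOpen_ball
  have hGkc : ∀ k, CvOn T D (Gk k) := by
    intro k
    rw [hGk]
    simp only
    split_ifs with hk
    · obtain ⟨h1, h2, h3⟩ := hv k hk
      exact (hφc k).comp hDo h1 (mapsTo_univ _ _)
    · exact hGic.mono (subset_univ _)
  have hPGk : ∀ k, ∀ w ∈ D, P (Gk k w) = g w := by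
    intro k w hw
    rw [hGk]
    simp only
    split_ifs with hk
    · obtain ⟨h1, h2, h3⟩ := hv k hk
      rw [← hgu, h3 w hw]
    · exact hPGi w
  obtain ⟨K, hK⟩ := hP m D Gk hDo (convex_ball _ _).isPreconnected
    ⟨b, mem_ball_self (by positivity)⟩ (fun k => (hGkc k).1) fun z hz =>
      (hF.fin (g z)).subset (by
        rintro _ ⟨k, rfl⟩
        exact ⟨(hGkc k).2 z hz, hPGk k z hz⟩)
  have hlimG : ∀ w ∈ D, Tendsto (fun k => Gk k w) 𝓤 (𝓝 (Gi w)) := by
    intro w hw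
    have herr : Tendsto (fun k => u k (v k w) - u k 0 - deriv (u k) 0 * v k w) 𝓤 (𝓝 0) := by
      refine squeeze_zero_norm' ?_ (hsmall (8 * M * 1 ^ 2))
      filter_upwards [hgood] with k hk
      exact (hest k 1 one_pos (by linarith [hk.1]) (v k w) ((hv k hk).2.1 hw)).2
    have h1 : Tendsto (fun k => (w - u k 0 - (u k (v k w) - u k 0 - deriv (u k) 0 * v k w)) /
        deriv (u k) 0) 𝓤 (𝓝 ((w - b) / a)) := by
      have := ((hb.const_sub w).sub herr).div ha ha0
      rwa [sub_zero] at this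
    have h2 : Tendsto (fun k => v k w) 𝓤 (𝓝 ((w - b) / a)) := by
      refine h1.congr' ?_
      filter_upwards [hgood, ha.eventually_ne ha0] with k hk hk0
      rw [(hv k hk).2.2 w hw]
      field_simp
      ring
    have h3 := hcc (‖(w - b) / a‖ + 1) (by positivity) ((w - b) / a)
      (mem_ball_zero_iff.2 (by linarith))
    have h4 : Tendsto (fun k => φk k (v k w)) 𝓤 (𝓝 (Gi w)) := h3.comp (tendsto_id.prodMk h2)
    refine h4.congr' ?_
    filter_upwards [hgood] with k hk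
    rw [hGk]
    simp only
    rw [if_pos hk]
  obtain ⟨j, hjK, hj⟩ : ∃ j ∈ K, ∀ᶠ k in (𝓤 : Filter ℕ), ∀ z ∈ D, Gk k z = Gk j z := by
    have h1 : ∀ᶠ k in (𝓤 : Filter ℕ), ∃ j ∈ (K : Set ℕ), ∀ z ∈ D, Gk k z = Gk j z :=
      Eventually.of_forall fun k => by
        obtain ⟨j, hj, h⟩ := hK k
        exact ⟨j, hj, h⟩
    obtain ⟨j, hj, h⟩ := (Ultrafilter.eventually_exists_mem_iff K.finite_toSet).1 h1
    exact ⟨j, hj, h⟩
  have hjG : ∀ w ∈ D, Gk j w = Gi w := by
    intro w hw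
    have h1 : Tendsto (fun k => Gk k w) 𝓤 (𝓝 (Gk j w)) :=
      tendsto_const_nhds.congr' (hj.mono fun k hk => (hk w hw).symm)
    exact tendsto_nhds_unique h1 (hlimG w hw)
  obtain ⟨k, hk, hkj⟩ := (hgood.and hj).exists
  obtain ⟨hv1, hv2, hv3⟩ := hv k hk
  have hkG : ∀ w ∈ D, φk k (v k w) = Gi w := by
    intro w hw
    have h1 := hkj w hw
    rw [hjG w hw, hGk] at h1
    simp only at h1
    rwa [if_pos hk] at h1
  -- the global lift
  refine ⟨fun w => Gi (w - l k), hGic.comp isOpen_univ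
    (Differentiable.differentiableOn (by fun_prop)) (mapsTo_univ _ _), fun w => ?_, fun z => ?_⟩
  · rw [hPGi, hl3]
  · have hG' : HolP univ fun z => Gi (h z - l k) :=
      (hGic.comp isOpen_univ (hh.sub_const _).differentiableOn (mapsTo_univ _ _)).1
    refine hU m univ φ (fun z => Gi (h z - l k)) isOpen_univ isPreconnected_univ hφ.1 hG' ?_ z
      (mem_univ z)
    intro hcount
    have hinj : InjOn (fun w => α k + r k * v k w) D := by
      intro w hw w' hw' he
      have h1 : (r k : ℂ) ≠ 0 := by exact_mod_cast (hr k).ne'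
      have h2 : v k w = v k w' := mul_left_cancel₀ h1 (add_left_cancel he)
      rw [← hv3 w hw, ← hv3 w' hw', h2]
    have hsub : (fun w => α k + r k * v k w) '' D ⊆
        {z | z ∈ (univ : Set ℂ) ∧ φ z = Gi (h z - l k)} := by
      rintro _ ⟨w, hw, rfl⟩
      refine ⟨mem_univ _, ?_⟩
      have h1 : h (α k + r k * v k w) - l k = w := hv3 w hw
      rw [h1]
      exact hkG w hw
    exact not_countable_ball (b := b) (s := ‖a‖ / 8) (by positivity)
      (countable_of_injective_of_countable_image hinj (hcount.mono hsub))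

end Pool.Agent.Helper65.FC.ONE
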