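import Pool.Agent.Helper65.NC.ALL
import Pool.Agent.Helper65.FC.ONE

/-!
Entire curves in closed subsets of projective manifolds with a pseudometric of nonpositive curvature
or with invariant jet differentials: the version with immersed curves of matrices.
-/

set_option autoImplicit false

open Filter Topology Metric MvPolynomial Set LinearAlgebra.Projectivization

namespace Pool.Agent.Helper65.FC.ENT

open Pool.Agent.W602.GT Pool.Agent.N155.BB Pool.Agent.Y190.OP Pool.Agent.N155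
  Pool.Agent.N155.GD Pool.Agent.Helper65.BF Pool.Agent.Helper65.GG Pool.Agent.Helper65.NC

/-- all entire curves in `T` are compositions with the immersed doubly periodic curves in `S` -/
def Factors {n : ℕ} (T : Set (Mat (n + 1))) (S : Finset (ℂ → Mat (n + 1))) (c0 : ℝ) : Prop :=
  0 < c0 ∧ (∀ g ∈ S, BCw T c0 g ∧ ∃ p q : ℂ, LinearIndependent ℝ ![p, q] ∧
    (∀ z, g (z + p) = g z) ∧ ∀ z, g (z + q) = g z) ∧
  ∀ φ : ℂ → Mat (n + 1), CvOn T univ φ → (∃ z, fderiv ℝ φ z ≠ 0) →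
    ∃ g ∈ S, ∃ h : ℂ → ℂ, Differentiable ℂ h ∧ ∀ z, φ z = g (h z)

variable {n d : ℕ} {ι ι' κ' : Type} {F : ι → MvPolynomial (Fin (n + 1)) ℂ}
  {Z : ι' → MvPolynomial (Fin (n + 1)) ℂ}
  {η : κ' → (Fin (n + 1) → ℂ) → (Fin (n + 1) → ℂ) → (Fin (n + 1) → ℂ) → ℂ}
  {V : Set (Fin (n + 1) → ℂ)}

theorem mat_metric (hs : S_SCH) (hL : S_LIOU) (hG : S_GROW) (hR : S_REG) (hRG : S_RIG)
    (h2 : S_TWO) (hA : S_META) (hB : S_METB) {r : ℕ} {ρ : (Fin (r + 1) → Fin (n + 1) → ℂ) → ℝ}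
    (hX : ProjManifold F d)
    (hZf : ∀ i, IsForm (Z i)) (hη : PositiveTwoForms (Cone F) (Cone Z) d η)
    (hρ : JetMetric (Cone F) r ρ) (hr : 0 < r) (hV : ClosedCone V) (hVX : V ⊆ Cone F)
    (hnd : ∀ f, CurveIn V f → ∀ C : ℝ, DerBetween 0 C f →
      (LengthZero ρ f ∨ CurveIn (Cone Z) f) → ∀ z w, f z = f w) :
    ∃ S c0, Factors (Phi '' V) S c0 := by
  classical
  have hsub : Phi '' V ⊆ TF F := V_sub hVX
  have hTP : Phi '' V ⊆ PM := hsub.trans TF_PM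
  have hT := compact_V hV hVX
  have hJ : JR (Phi '' V) (GR ρ) := (jr_of hA hB hX hρ hr).subset hsub
  have hND : NDr (Phi '' V) (GR ρ) := by
    intro φ hφ h0 z
    obtain ⟨h1, ⟨C, h2⟩, h3⟩ := curve_of hV hVX hφ
    exact const_of_toProj hVX hφ.mem (hnd _ h1 C h2 (Or.inl (len_of hA hX hρ hVX hφ h0))) z
  have hgw := gw_mono (gw_of hX hZf hη) hsub
  have hout : ∀ c : ℝ, 0 < c → ∀ φ, BCw (Phi '' V) c φ → ∃ z, φ z ∉ TF Z := by
    intro c hc φ hφ
    by_contra hcon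
    push Not at hcon
    obtain ⟨h1, ⟨C, h2⟩, h3⟩ := curve_of hV hVX ⟨hφ.hol, hφ.mem, hφ.bd⟩
    have h4 := const_of_toProj hVX hφ.mem (hnd _ h1 C h2 (Or.inr ⟨h1.1, fun z =>
      rep_toProj hZf (hcon z)⟩)) 0
    have h5 := hφ.low 0
    rw [h4, norm_zero] at h5
    linarith
  obtain ⟨S, c0, hc0, hS, hfac⟩ := core_allR hs hL hG hR hRG h2 hT hTP hJ hND ⟨hgw, hout⟩
  exact ⟨S, c0, hc0, hS, hfac⟩

theorem mat_closed {N : ℕ} {r k : Fin N → ℕ}
    {σ : (i : Fin N) → (Fin (r i + 1) → Fin (n + 1) → ℂ) → ℂ} (hX : ProjManifold F d)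
    (hZf : ∀ i, IsForm (Z i)) (hη : PositiveTwoForms (Cone F) (Cone Z) d η)
    (hσ : ∀ i, JetDiff (Cone F) (r i) (k i) (σ i)) (hr : ∀ i, 0 < r i) (hk : ∀ i, 0 < k i)
    (hV : ClosedCone V) (hVX : V ⊆ Cone F)
    (hnd : ∀ f, CurveIn V f → ∀ C : ℝ, DerBetween 0 C f →
      ((∀ i, Annihilates (σ i) f) ∨ CurveIn (Cone Z) f) → ∀ z w, f z = f w) :
    ∃ S c0, Factors (Phi '' V) S c0 := by
  classical
  have hsub : Phi '' V ⊆ TF F := V_sub hVX
  have hTP : Phi '' V ⊆ PM := hsub.trans TF_PM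
  have hT := compact_V hV hVX
  have hJ : ∀ i, JI (Phi '' V) (k i) (GJ (σ i)) := fun i => (ji_of hX (hσ i) (hr i)).subset hsub
  have hND : NDf (Phi '' V) fun i => GJ (σ i) := by
    intro φ hφ h0 z
    obtain ⟨h1, ⟨C, h2⟩, h3⟩ := curve_of hV hVX hφ
    exact const_of_toProj hVX hφ.mem (hnd _ h1 C h2 (Or.inl fun i =>
      annih_of hX.form (hσ i) hVX hφ (h0 i))) z
  have hgw := gw_mono (gw_of hX hZf hη) hsub
  have hout : ∀ c : ℝ, 0 < c → ∀ φ, BCw (Phi '' V) c φ → ∃ z, φ z ∉ TF Z := by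
    intro c hc φ hφ
    by_contra hcon
    push Not at hcon
    obtain ⟨h1, ⟨C, h2⟩, h3⟩ := curve_of hV hVX ⟨hφ.hol, hφ.mem, hφ.bd⟩
    have h4 := const_of_toProj hVX hφ.mem (hnd _ h1 C h2 (Or.inr ⟨h1.1, fun z =>
      rep_toProj hZf (hcon z)⟩)) 0
    have h5 := hφ.low 0
    rw [h4, norm_zero] at h5
    linarith
  obtain ⟨S, c0, hc0, hS, hfac⟩ := core_all hT hTP hJ hk hND hgw hout
  exact ⟨S, c0, hc0, hS, hfac⟩

theorem mat_null {null : (ℂ → ℙ ℂ (Fin (n + 1) → ℂ)) → Prop}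
    (hX : ProjManifold F d) (hZ : ∀ i, IsForm (Z i))
    (hη : PositiveTwoForms (Cone F) (Cone Z) d η) (hN : NullCurves (Cone F) null)
    (hV : ClosedCone V) (hVX : V ⊆ Cone F)
    (hnd : ∀ f, CurveIn V f → ∀ C : ℝ, DerBetween 0 C f →
      (null f ∨ CurveIn (Cone Z) f) → ∀ z w, f z = f w) :
    ∃ S c0, Factors (Phi '' V) S c0 := by
  have hS : S_SCH := SCH.main LIM.main
  have hT : S_TWO := TWO.main hS
  have hC : S_CST := CST.main LIOU.main
  have hRM : S_RM := RM.main POI.main MONO.main MONO.conv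
  rcases hN with ⟨r, ρ, hr, hρ, hn⟩ | ⟨N, r, k, σ, hσ, hr, hk, hn⟩
  · exact mat_metric hS LIOU.main GROW.main
      (REG.main POI.main (TAU.main POI.main MONO.main MONO.conv))
      (RIG.main MONO.main hRM (INI.main MONO.main hRM LIM.main hC hS)
        (NH.main (NEARH.main MONO.main)
          (NHL.main hC hT TRK.main (LIFT.main INV.main))))
      hT (META.main (LOC.main POI.main)) METB.main hX hZ hη hρ hr hV hVX
      fun f h1 C h2 h3 => hnd f h1 C h2 (h3.imp (hn f) id)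
  · exact mat_closed hX hZ hη hσ hr hk hV hVX
      fun f h1 C h2 h3 => hnd f h1 C h2 (h3.imp (hn f) id)

end Pool.Agent.Helper65.FC.ENT
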