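import Pool.Agent.Helper65.FC.Stm2

/-!
Rational maps to projective sets: the module EXT. The image of an entire curve under a rational map
extends to an entire curve.
-/

set_option autoImplicit false

open Filter Topology Metric MvPolynomial Set LinearAlgebra.Projectivization

namespace Pool.Agent.Helper65.FC.EXT

open Pool.Agent.W602.GT Pool.Agent.N155.BB Pool.Agent.Y190.OP Pool.Agent.N155
  Pool.Agent.N155.GD Pool.Agent.Helper65.BF Pool.Agent.Helper65.GG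

lemma eval_smul {m e : ℕ} {P : MvPolynomial (Fin (m + 1)) ℂ} (hP : P.IsHomogeneous e) (c : ℂ)
    (x : Fin (m + 1) → ℂ) : eval (c • x) P = c ^ e * eval x P := by
  rw [eval_eq', eval_eq', Finset.mul_sum]
  refine Finset.sum_congr rfl fun d hd => ?_
  have h1 : ∑ i, d i = e := by
    have h2 := hP (mem_support_iff.1 hd)
    rw [Finsupp.weight_apply] at h2
    simpa [Finsupp.sum_fintype] using h2
  simp only [Pi.smul_apply, smul_eq_mul, mul_pow, Finset.prod_mul_distrib]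
  rw [Finset.prod_pow_eq_pow_sum, h1]
  ring

lemma rep_mk {k : ℕ} {v : Fin (k + 1) → ℂ} (hv : v ≠ 0) :
    ∃ a : ℂ, a ≠ 0 ∧ (Projectivization.mk ℂ v hv).rep = a • v := by
  obtain ⟨a, ha⟩ := Projectivization.exists_smul_eq_mk_rep ℂ v hv
  exact ⟨a, a.ne_zero, ha.symm⟩

lemma analyticAt_eval {m : ℕ} {F : ℂ → Fin (m + 1) → ℂ} {z : ℂ} (hF : AnalyticAt ℂ F z)
    (P : MvPolynomial (Fin (m + 1)) ℂ) : AnalyticAt ℂ (fun w => eval (F w) P) z := by
  have h := AnalyticAt.aeval_mvPolynomial (𝕜 := ℂ) (fun i => (analyticAt_pi_iff.1 hF) i) P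
  exact h

/-- the points near which `Q₀ ∘ f` vanishes -/
lemma not_zero {m q : ℕ} {Q₀ : MvPolynomial (Fin (m + 1)) ℂ} (hQ : Q₀.IsHomogeneous q)
    {f : ℂ → ℙ ℂ (Fin (m + 1) → ℂ)} (hf : HolMap f) (hne : ∃ z, eval (f z).rep Q₀ ≠ 0) (z : ℂ) :
    ∀ᶠ w in 𝓝[≠] z, eval (f w).rep Q₀ ≠ 0 := by
  -- the dichotomy
  have dich : ∀ z, (∀ᶠ w in 𝓝 z, eval (f w).rep Q₀ = 0) ∨ ∀ᶠ w in 𝓝[≠] z, eval (f w).rep Q₀ ≠ 0 := by
    intro z
    obtain ⟨V, F, hV, hz, hF, hFf⟩ := hf z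
    have hVz : V ∈ 𝓝 z := hV.mem_nhds hz
    have hFa : AnalyticAt ℂ F z := hF.analyticAt hVz
    have hval : ∀ w ∈ V, ∃ a : ℂ, a ≠ 0 ∧ eval (f w).rep Q₀ = a ^ q * eval (F w) Q₀ := by
      intro w hw
      obtain ⟨h1, h2⟩ := hFf w hw
      obtain ⟨a, ha, ha2⟩ := rep_mk h1
      exact ⟨a, ha, by rw [h2, ha2, eval_smul hQ]⟩
    rcases (analyticAt_eval hFa Q₀).eventually_eq_zero_or_eventually_ne_zero with h | h
    · left
      filter_upwards [h, hVz] with w hw hwV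
      obtain ⟨a, -, ha⟩ := hval w hwV
      rw [ha, hw, mul_zero]
    · right
      filter_upwards [h, mem_nhdsWithin_of_mem_nhds hVz] with w hw hwV
      obtain ⟨a, ha0, ha⟩ := hval w hwV
      rw [ha]
      exact mul_ne_zero (pow_ne_zero _ ha0) hw
  set A : Set ℂ := {z | ∀ᶠ w in 𝓝 z, eval (f w).rep Q₀ = 0} with hA
  have hopen : IsOpen A := by
    rw [isOpen_iff_mem_nhds]
    intro z hz
    exact eventually_eventually_nhds.2 hz
  have hclosed : IsClosed A := by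
    rw [← isOpen_compl_iff, isOpen_iff_mem_nhds]
    intro z hz
    rcases dich z with h | h
    · exact absurd h hz
    · rw [eventually_nhdsWithin_iff] at h
      filter_upwards [eventually_eventually_nhds.2 h] with a ha haA
      have h1 : ∀ᶠ w in 𝓝 a, w = z := by
        filter_upwards [ha, (show ∀ᶠ w in 𝓝 a, eval (f w).rep Q₀ = 0 from haA)] with w hw1 hw2
        by_contra hwz
        exact hw1 hwz hw2
      have h2 : a = z := h1.self_of_nhds
      have h3 : ∀ᶠ w in 𝓝[≠] a, w = z := h1.filter_mono nhdsWithin_le_nhds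
      have h4 : ∀ᶠ w in 𝓝[≠] a, w ≠ a := eventually_mem_nhdsWithin
      obtain ⟨w, hw1, hw2⟩ := (h3.and h4).exists
      exact hw2 (hw1.trans h2.symm)
  have hclopen : IsClopen A := ⟨hclosed, hopen⟩
  rcases dich z with h | h
  · exfalso
    have hzA : z ∈ A := h
    have huniv : A = univ := by
      rcases isClopen_iff.1 hclopen with h1 | h1
      · rw [h1] at hzA
        exact absurd hzA (notMem_empty _)
      · exact h1
    obtain ⟨z₁, hz₁⟩ := hne
    have h2 : z₁ ∈ A := by rw [huniv]; exact mem_univ _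
    exact hz₁ (show ∀ᶠ w in 𝓝 z₁, eval (f w).rep Q₀ = 0 from h2).self_of_nhds
  · exact h

theorem main : S_EXT := by
  intro m n e q G Q₀ Y W hW hW0 hG hQ hGW hY f hf hne
  have loc : ∀ z : ℂ, ∃ H : ℂ → Fin (n + 1) → ℂ, AnalyticAt ℂ H z ∧ H z ≠ 0 ∧
      (∀ᶠ w in 𝓝[≠] z, eval (f w).rep Q₀ ≠ 0 ∧
        ∃ c : ℂ, c ≠ 0 ∧ (fun i => eval (f w).rep (G i)) = c • H w) ∧
      (eval (f z).rep Q₀ ≠ 0 → ∃ c : ℂ, c ≠ 0 ∧ (fun i => eval (f z).rep (G i)) = c • H z) := by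
    intro z
    obtain ⟨V, F, hV, hz, hF, hFf⟩ := hf.1 z
    have hVz : V ∈ 𝓝 z := hV.mem_nhds hz
    have hFa : AnalyticAt ℂ F z := hF.analyticAt hVz
    have hga : AnalyticAt ℂ (fun w i => eval (F w) (G i)) z :=
      analyticAt_pi_iff.2 fun i => analyticAt_eval hFa (G i)
    have hval : ∀ w ∈ V, ∃ a : ℂ, a ≠ 0 ∧
        (fun i => eval (f w).rep (G i)) = a • (fun i => eval (F w) (G i)) := by
      intro w hw
      obtain ⟨h1, h2⟩ := hFf w hw
      obtain ⟨a, ha, ha2⟩ := rep_mk h1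
      refine ⟨a ^ e, pow_ne_zero _ ha, ?_⟩
      funext i
      rw [h2, ha2, eval_smul (hG i)]
      rfl
    have hnz := not_zero hQ hf.1 hne z
    have hGne : ∀ w ∈ V, eval (f w).rep Q₀ ≠ 0 → (fun i => eval (F w) (G i)) ≠ 0 := by
      intro w hw hw2 h0
      obtain ⟨a, ha, ha2⟩ := hval w hw
      have h3 := hW0 _ (hGW _ (hf.2 w) hw2)
      apply h3
      rw [ha2, h0, smul_zero]
    have hnot : ¬ ∀ᶠ w in 𝓝 z, (fun i => eval (F w) (G i)) = 0 := by
      intro h0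
      have h1 : ∀ᶠ w in 𝓝[≠] z, (fun i => eval (F w) (G i)) = 0 := h0.filter_mono nhdsWithin_le_nhds
      obtain ⟨w, ⟨hw1, hw2⟩, hw3⟩ := ((h1.and hnz).and (mem_nhdsWithin_of_mem_nhds hVz)).exists
      exact hGne w hw3 hw2 hw1
    obtain ⟨k, H, hHa, hH0, hH⟩ := hga.exists_eventuallyEq_pow_smul_nonzero_iff.2 hnot
    refine ⟨H, hHa, hH0, ?_, ?_⟩
    · filter_upwards [hnz, mem_nhdsWithin_of_mem_nhds hVz, hH.filter_mono nhdsWithin_le_nhds,
        (eventually_mem_nhdsWithin : ∀ᶠ w in 𝓝[≠] z, w ∈ ({z}ᶜ : Set ℂ))] with w hw1 hw2 hw3 hw4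
      refine ⟨hw1, ?_⟩
      obtain ⟨a, ha, ha2⟩ := hval w hw2
      refine ⟨a * (w - z) ^ k, mul_ne_zero ha (pow_ne_zero _ (sub_ne_zero.2 hw4)), ?_⟩
      rw [ha2, hw3, smul_smul]
    · intro hz1
      obtain ⟨a, ha, ha2⟩ := hval z hz
      have h1 := hH.self_of_nhds
      have h2 := hGne z hz hz1
      refine ⟨a, ha, ?_⟩
      rw [ha2]
      congr 1
      rw [sub_self] at h1
      rcases Nat.eq_zero_or_pos k with hk | hk
      · rw [hk, pow_zero, one_smul] at h1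
        exact h1
      · rw [zero_pow (by omega), zero_smul] at h1
        exact absurd h1 h2
  choose H hHa hH0 hH1 hH2 using loc
  have hW' : ∀ z, H z z ∈ W := by
    intro z
    have h1 : Tendsto (H z) (𝓝[≠] z) (𝓝 (H z z)) :=
      (hHa z).continuousAt.tendsto.mono_left nhdsWithin_le_nhds
    have h2 : ∀ᶠ w in 𝓝[≠] z, H z w ∈ insert 0 W := by
      filter_upwards [hH1 z] with w hw
      obtain ⟨hw1, c, hc, hw2⟩ := hw
      right
      have h3 := hW.smul _ (hGW _ (hf.2 w) hw1) c⁻¹ (inv_ne_zero hc)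
      rw [hw2, smul_smul, inv_mul_cancel₀ hc, one_smul] at h3
      exact h3
    rcases hW.closed.mem_of_tendsto h1 h2 with h3 | h3
    · exact absurd h3 (hH0 z)
    · exact h3
  refine ⟨fun z => Projectivization.mk ℂ (H z z) (hH0 z), ⟨?_, ?_⟩, ?_⟩
  · intro z
    have h1 : ∀ᶠ w in 𝓝 z, DifferentiableAt ℂ (H z) w ∧ ∃ h : H z w ≠ 0,
        Projectivization.mk ℂ (H w w) (hH0 w) = Projectivization.mk ℂ (H z w) h := by
      have h2 := hH1 z
      rw [eventually_nhdsWithin_iff] at h2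
      filter_upwards [h2, (hHa z).eventually_analyticAt,
        (hHa z).continuousAt.eventually_ne (hH0 z)] with w hw1 hw2 hw3
      refine ⟨hw2.differentiableAt, hw3, ?_⟩
      by_cases hwz : w = z
      · subst hwz
        rfl
      · obtain ⟨h3, c, hc, h4⟩ := hw1 hwz
        obtain ⟨c', hc', h5⟩ := hH2 w h3
        rw [Projectivization.mk_eq_mk_iff']
        refine ⟨c'⁻¹ * c, ?_⟩
        rw [mul_smul, ← h4, h5, smul_smul, inv_mul_cancel₀ hc', one_smul]
    obtain ⟨V, hV1, hV2, hV3⟩ := _root_.eventually_nhds_iff.1 h1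
    exact ⟨V, H z, hV2, hV3, fun w hw => ((hV1 w hw).1).differentiableWithinAt,
      fun w hw => (hV1 w hw).2⟩
  · intro z
    obtain ⟨a, ha, ha2⟩ := rep_mk (hH0 z)
    rw [ha2]
    exact hW.smul _ (hW' z) a ha
  · intro z hz
    obtain ⟨c, hc, h1⟩ := hH2 z hz
    obtain ⟨a, ha, ha2⟩ := rep_mk (hH0 z)
    refine ⟨c * a⁻¹, mul_ne_zero hc (inv_ne_zero ha), ?_⟩
    rw [h1, ha2, smul_smul, mul_assoc, inv_mul_cancel₀ ha, mul_one]

end Pool.Agent.Helper65.FC.EXT
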