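import Pool.Agent.Helper65.FC.ALL
import Pool.Agent.Helper65.HD.Me
import Pool.Agent.Helper65.HD.Li

/-!
Entire curves in projective varieties with a finite morphism to a Fermat cover of a projective space.
-/

set_option autoImplicit false

open Filter Topology Metric MvPolynomial Set LinearAlgebra.Projectivization

namespace Pool.Agent.Helper65.FC.FER

open Pool.Agent.W602.GT Pool.Agent.N155.BB Pool.Agent.Y190.OP Pool.Agent.N155
  Pool.Agent.N155.GD Pool.Agent.Helper65.BF Pool.Agent.Helper65.GG Pool.Agent.Helper65.NC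
  Pool.Agent.Helper65.HD

/-- **Entire curves in finite covers**, from the matrix version for the target. -/
theorem cover_gen {m n e : ℕ} {ι : Type} {F : ι → MvPolynomial (Fin (n + 1)) ℂ}
    {W : Set (Fin (n + 1) → ℂ)} {G : Fin (n + 1) → MvPolynomial (Fin (m + 1)) ℂ}
    {Y : Set (Fin (m + 1) → ℂ)} (hWX : W ⊆ Cone F) (hG' : FiniteMorphism Y W e G)
    {S : Finset (ℂ → Mat (n + 1))} {c0 : ℝ} (hS : ENT.Factors (Phi '' W) S c0)
    (hforms : ∀ x ∈ Cone F, ∃ P : MvPolynomial (Fin (n + 1)) ℂ, IsForm P ∧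
        (∃ᶠ y in 𝓝 x, y ∈ Cone F ∧ eval y P ≠ 0) ∧
        ∀ g ∈ S, ∀ z, eval (toProj (g z)).rep P = 0) :
    ∃ S : Finset (ℂ → ℙ ℂ (Fin (m + 1) → ℂ)),
      (∀ g ∈ S, CurveIn Y g ∧ DoublyPeriodic g ∧ ¬ ∀ z w, g z = g w) ∧
      (∀ f, CurveIn Y f → (¬ ∀ z w, f z = f w) →
        ∃ g ∈ S, ∃ h : ℂ → ℂ, Differentiable ℂ h ∧ ∀ z, f z = g (h z)) ∧
      ∀ x ∈ Cone F, ∃ P : MvPolynomial (Fin (n + 1)) ℂ, IsForm P ∧
        (∃ᶠ y in 𝓝 x, y ∈ Cone F ∧ eval y P ≠ 0) ∧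
        ∀ g ∈ S, ∀ z, eval (fun i => eval (g z).rep (G i)) P = 0 := by
  classical
  have hG := hG'.forms hWX
  have hYn := FIN.sub_none hG.ne
  have hTP : Phi '' Y ⊆ PM := (V_sub hYn).trans TF_PM
  obtain ⟨S', h1, h2⟩ := FIN.cover_mat UNC.main
    (ONE.main UNC.main (PIG.main UNC.main) INVL.main EST.main RSC.main)
    (LFT.main (PIG.main UNC.main)) (LFF.main (PIG.main UNC.main))
    (FIN.finMap POLA.main (POLB.main POLA.main) hG) (compact_V hG.cone hYn) hTP hS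
  have hPY := (POLA.main m n e G Y W hG).1
  refine ⟨S'.image fun φ z => toProj (φ z), fun g hg => ?_, fun f hf hne => ?_, fun x hx => ?_⟩
  · obtain ⟨φ, hφ, rfl⟩ := Finset.mem_image.1 hg
    obtain ⟨hc, -, ⟨z0, hz0⟩, p, q, hind, hp, hq⟩ := h1 φ hφ
    refine ⟨⟨holMap_of hc.1, fun z => rep_V hG.cone hYn (hc.2 z (mem_univ z))⟩, ?_, fun hcon => ?_⟩
    · obtain ⟨L, hL⟩ := pair_periods hind hp hq
      exact ⟨L, fun l hl z => by
        change toProj (φ (z + l)) = toProj (φ z)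
        rw [hL l hl z]⟩
    · exact hz0 (const_of_toProj hYn (fun z => hc.2 z (mem_univ z)) hcon z0)
  · obtain ⟨g, hg, h, hh, hfg⟩ := h2 (fun z => Phi (f z).rep)
      ⟨holP_of_map hf.1, fun z _ => ⟨_, hf.2 z, rfl⟩⟩ (nonconst_of hf.1 hne)
    refine ⟨_, Finset.mem_image_of_mem _ hg, h, hh, fun z => ?_⟩
    rw [← hfg z, toProj_Phi_rep]
  · obtain ⟨P, hP1, hP2, hP3⟩ := hforms x hx
    refine ⟨P, hP1, hP2, fun g hg z => ?_⟩
    obtain ⟨φ, hφ, rfl⟩ := Finset.mem_image.1 hg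
    obtain ⟨hc, ⟨g0, hg0, hPg⟩, -⟩ := h1 φ hφ
    have h3 := hP3 g0 hg0 z
    have h4 : Phi (toProj (φ z)).rep = φ z := Phi_rep_toProj (hTP (hc.2 z (mem_univ z)))
    have h5 : (toProj (φ z)).rep ∈ Y := rep_V hG.cone hYn (hc.2 z (mem_univ z))
    have h6 := hPY _ h5
    rw [h4, hPg z] at h6
    have h7 : (fun i => eval (toProj (φ z)).rep (G i)) ≠ 0 := hG.ne' _ (hG.maps _ h5)
    rw [h6, toProj_Phi h7] at h3
    obtain ⟨c, hc', hcr⟩ := mk_rep_smul h7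
    obtain ⟨D, hD⟩ := hP1
    rw [hcr] at h3
    rw [eval_smul hD] at h3
    exact (mul_eq_zero.1 h3).resolve_left (pow_ne_zero _ hc')

/-- the matrix version with the forms -/
def MatForms {n : ℕ} {ι : Type} (F : ι → MvPolynomial (Fin (n + 1)) ℂ)
    (V : Set (Fin (n + 1) → ℂ)) : Prop :=
  ∃ (S : Finset (ℂ → Mat (n + 1))) (c0 : ℝ), ENT.Factors (Phi '' V) S c0 ∧
    ∀ x ∈ Cone F, ∃ P : MvPolynomial (Fin (n + 1)) ℂ, IsForm P ∧
      (∃ᶠ y in 𝓝 x, y ∈ Cone F ∧ eval y P ≠ 0) ∧ ∀ g ∈ S, ∀ z, eval (toProj (g z)).rep P = 0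

theorem closed_mat {n N m e : ℕ} {ℓ : Fin (n + 1) → Fin (N + 1) → ℂ} {V : Set (Fin (n + 1) → ℂ)}
    (D : Dat n N m e ℓ) (hV : ClosedCone V) (hVX : V ⊆ Cone (fermatForms ℓ (e + N)))
    (hnd : ∀ f, CurveIn V f → ∀ C : ℝ, DerBetween 0 C f → OverHyperplane ℓ (e + N) f →
      ∀ z w, f z = f w) : MatForms (fermatForms ℓ (e + N)) V := by
  classical
  have hX := D.man
  have hsub : Phi '' V ⊆ TF (fermatForms ℓ (e + N)) := V_sub hVX
  have hTP : Phi '' V ⊆ PM := hsub.trans TF_PM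
  have hT := compact_V hV hVX
  have hJ : JI (Phi '' V) (N * (N + 1) / 2) (GJ (wn D.hr ℓ e)) := D.ji.subset hsub
  have hND : ∀ φ, BD (Phi '' V) φ → (∀ z, GJ (wn D.hr ℓ e) φ z = 0) →
      ∀ z, fderiv ℝ φ z = 0 := by
    intro φ hφ h0 z
    obtain ⟨h1, ⟨C, h2⟩, h3⟩ := curve_of hV hVX hφ
    have hφ' : BD (TF (fermatForms ℓ (e + N))) φ := ⟨hφ.hol, fun w => hsub (hφ.mem w), hφ.bd⟩
    exact const_of_toProj hVX hφ.mem (hnd _ h1 C h2 (over_of_ovM (ψ := fun z => z)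
      (ovM_of_zero D hφ' h0) fun z => congrFun h3 z)) z
  have hNDf : NDf (Phi '' V) fun _ : Fin 1 => GJ (wn D.hr ℓ e) := fun φ hφ h0 =>
    hND φ hφ (h0 0)
  obtain ⟨S, c0, hc0, hS, hfac⟩ := core_all' (N := 1) (k := fun _ => N * (N + 1) / 2)
    (G := fun _ => GJ (wn D.hr ℓ e)) hT hTP (fun _ => hJ) (fun _ => D.wpos) hNDf
    (fun c hc => rigid_bcw D hsub hND hc)
  exact ⟨S, c0, ⟨hc0, hS, hfac⟩, HD.forms_of hX D.two S (fun g hg => ⟨(hS g hg).1.hol,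
      (hS g hg).1.bd, fun z => hsub ((hS g hg).1.mem z), (hS g hg).2⟩)⟩

theorem plane_mat {m e : ℕ} {ℓ : Fin (m + 2 + 1) → Fin (2 + 1) → ℂ}
    (hℓ : GeneralPosition ℓ) (hme : m * e = 6) {V : Set (Fin (m + 2 + 1) → ℂ)} (hV : ClosedCone V)
    (hVX : V ⊆ Cone (fermatForms ℓ (e + 2)))
    (hline : m + 2 = 3 → ∀ P Q, Line (fermatForms ℓ (e + 2)) P Q →
        ∃ s t : ℂ, s • P + t • Q ≠ 0 ∧ s • P + t • Q ∉ V) :
    MatForms (fermatForms ℓ (e + 2)) V := by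
  have hm1 : m ≠ 0 := by
    rintro rfl
    omega
  have he1 : e ≠ 0 := by
    rintro rfl
    omega
  have hr : 3 ≤ m + 2 + 1 := by omega
  have hX : ProjManifold (fermatForms ℓ (e + 2)) 2 := manifold hℓ (by omega) (by omega)
  have hnd' : ∀ f, CurveIn V f → ∀ C : ℝ, DerBetween 0 C f →
      ((∀ _ : Fin 1, Annihilates (wj hr ℓ e) f) ∨
        CurveIn (Cone fun _ : Unit => (1 : MvPolynomial (Fin (m + 2 + 1)) ℂ)) f) →
      ∀ z w, f z = f w := by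
    rintro f hf C hb (h1 | h1)
    · have hf' : HolIn (fermatForms ℓ (e + 2)) f := ⟨hf.1, fun z => hVX (hf.2 z)⟩
      by_cases hm2 : 2 ≤ m
      · exact wj_nd hr hℓ rfl hme hm2 hf' hb (h1 0)
      · have hm' : m = 1 := by omega
        subst hm'
        have he' : e = 6 := by omega
        subst he'
        exact wj_nd_line hr hℓ hV hVX (hline rfl) hf hb (h1 0)
    · exfalso
      have h2 := (h1.2 0).2 ()
      unfold W602.GT.val at h2
      rw [map_one] at h2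
      exact one_ne_zero h2
  obtain ⟨S, c0, hS⟩ := ENT.mat_closed (N := 1) (r := fun _ => 2) (k := fun _ => 3)
    (σ := fun _ => wj hr ℓ e) hX form_one (two_forms hℓ hr rfl hme)
    (fun _ => jetDiff_wj hr hℓ rfl hme) (fun _ => two_pos) (fun _ => three_pos) hV hVX hnd'
  exact ⟨S, c0, hS, fun x hx => NC.forms_of hX hVX hS.2.1 le_rfl hx⟩

end Pool.Agent.Helper65.FC.FER
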