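import Pool.Agent.Helper65.FC.ENT
import Pool.Agent.Helper65.NC.SPE
import Pool.Agent.Helper65.NC.EQV

/-!
Entire curves in projective sets with a finite map to a projective manifold with a pseudometric of
nonpositive curvature or with invariant jet differentials.
-/

set_option autoImplicit false

open Filter Topology Metric MvPolynomial Set LinearAlgebra.Projectivization

namespace Pool.Agent.Helper65.FC.FIN

open Pool.Agent.W602.GT Pool.Agent.N155.BB Pool.Agent.Y190.OP Pool.Agent.N155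
  Pool.Agent.N155.GD Pool.Agent.Helper65.BF Pool.Agent.Helper65.GG Pool.Agent.Helper65.NC

/-- the family of no forms -/
def none' (m : ℕ) : Empty → MvPolynomial (Fin (m + 1)) ℂ := fun i => i.elim

theorem sub_none {m : ℕ} {Y : Set (Fin (m + 1) → ℂ)} (h : ∀ y ∈ Y, y ≠ 0) : Y ⊆ Cone (none' m) :=
  fun y hy => ⟨h y hy, fun i => i.elim⟩

theorem finMap (hA : S_POLA) (hB : S_POLB) {m n e : ℕ} {G : Fin (n + 1) → MvPolynomial (Fin (m + 1)) ℂ}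
    {Y : Set (Fin (m + 1) → ℂ)} {W : Set (Fin (n + 1) → ℂ)} (h : Forms e G Y W) :
    FinMap (Phi '' Y) (Phi '' W) (PG G) := by
  obtain ⟨-, h2, h3⟩ := hA m n e G Y W h
  obtain ⟨h4, h5⟩ := hB m n e G Y W h
  exact ⟨h4, h2, h5, h3⟩

/-- **Entire curves in finite covers.** -/
theorem cover_mat (hU : S_UNC) (hO : S_ONE) (hL : S_LFT) (hLF : S_LFF) {m n : ℕ}
    {T : Set (Mat (m + 1))} {T' : Set (Mat (n + 1))} {P : Mat (m + 1) → Mat (n + 1)}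
    (hF : FinMap T T' P) (hT : IsCompact T) (hTP : T ⊆ PM) {S : Finset (ℂ → Mat (n + 1))} {c0 : ℝ}
    (hS : ENT.Factors T' S c0) :
    ∃ S' : Finset (ℂ → Mat (m + 1)),
      (∀ G ∈ S', CvOn T univ G ∧ (∃ g ∈ S, ∀ z, P (G z) = g z) ∧
        (∃ z, fderiv ℝ G z ≠ 0) ∧ ∃ p q : ℂ, LinearIndependent ℝ ![p, q] ∧
        (∀ z, G (z + p) = G z) ∧ ∀ z, G (z + q) = G z) ∧
      ∀ φ : ℂ → Mat (m + 1), CvOn T univ φ → (∃ z, fderiv ℝ φ z ≠ 0) →
        ∃ G ∈ S', ∃ h : ℂ → ℂ, Differentiable ℂ h ∧ ∀ z, φ z = G (h z) := by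
  classical
  obtain ⟨hc0, hS1, hS2⟩ := hS
  have hfin : (⋃ g ∈ (S : Set (ℂ → Mat (n + 1))),
      {G : ℂ → Mat (m + 1) | CvOn T univ G ∧ ∀ z, P (G z) = g z}).Finite :=
    S.finite_toSet.biUnion fun g _ => hLF m n T T' P hF g
  refine ⟨hfin.toFinset, fun G hG => ?_, fun φ hφ hne => ?_⟩
  · rw [Set.Finite.mem_toFinset] at hG
    obtain ⟨g, hg, hG1, hG2⟩ := mem_iUnion₂.1 hG
    obtain ⟨hb, p, q, hind, hp, hq⟩ := hS1 g hg
    refine ⟨hG1, ⟨g, hg, hG2⟩, ?_, hL m n T T' P hF g p q hind hp hq G hG1 hG2⟩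
    by_contra hcon
    push Not at hcon
    have h1 : ∀ z, G z = G 0 := fun z =>
      is_const_of_fderiv_eq_zero (𝕜 := ℝ)
        (fun w => hG1.1.differentiableAt (mem_univ w)) hcon z 0
    have h2 : g = fun _ => P (G 0) := funext fun z => by rw [← hG2 z, h1 z]
    have h3 := hb.low 0
    rw [h2, fderiv_const_apply, norm_zero] at h3
    linarith
  · have h1 := hF.curve univ φ isOpen_univ hφ
    have h2 : ∃ z, fderiv ℝ (fun z => P (φ z)) z ≠ 0 := by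
      by_contra hcon
      push Not at hcon
      have h3 : ∀ z, P (φ z) = P (φ 0) := fun z =>
        is_const_of_fderiv_eq_zero (𝕜 := ℝ)
          (fun w => h1.1.differentiableAt (mem_univ w)) hcon z 0
      obtain ⟨z, hz⟩ := hne
      exact hz (ONE.const_of hU hF hTP hφ h3 z)
    obtain ⟨g, hg, h, hh, hfg⟩ := hS2 _ h1 h2
    obtain ⟨hb, p, q, hind, hp, hq⟩ := hS1 g hg
    obtain ⟨G, hG1, hG2, hG3⟩ := hO m n T T' P hF hT hTP g c0 p q hc0 hb hind hp hq φ h hφ hne hh hfg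
    refine ⟨G, ?_, h, hh, hG3⟩
    rw [Set.Finite.mem_toFinset]
    exact mem_iUnion₂.2 ⟨g, hg, hG1, hG2⟩

variable {m n d e : ℕ} {ι ι' κ' : Type} {F : ι → MvPolynomial (Fin (n + 1)) ℂ}
  {Z : ι' → MvPolynomial (Fin (n + 1)) ℂ}
  {η : κ' → (Fin (n + 1) → ℂ) → (Fin (n + 1) → ℂ) → (Fin (n + 1) → ℂ) → ℂ}
  {W : Set (Fin (n + 1) → ℂ)} {null : (ℂ → ℙ ℂ (Fin (n + 1) → ℂ)) → Prop}
  {G : Fin (n + 1) → MvPolynomial (Fin (m + 1)) ℂ} {Y : Set (Fin (m + 1) → ℂ)}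

theorem cover (hU : S_UNC) (hO : S_ONE) (hL : S_LFT) (hLF : S_LFF) (hA : S_POLA) (hB : S_POLB)
    (hX : ProjManifold F d) (hZ : ∀ i, IsForm (Z i))
    (hη : PositiveTwoForms (Cone F) (Cone Z) d η) (hN : NullCurves (Cone F) null)
    (hW : ClosedCone W) (hWX : W ⊆ Cone F)
    (hnd : ∀ f, CurveIn W f → ∀ C : ℝ, DerBetween 0 C f →
      (null f ∨ CurveIn (Cone Z) f) → ∀ z w, f z = f w) (hG : Forms e G Y W) :
    ∃ S : Finset (ℂ → ℙ ℂ (Fin (m + 1) → ℂ)),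
      (∀ g ∈ S, CurveIn Y g ∧ DoublyPeriodic g ∧ ¬ ∀ z w, g z = g w) ∧
      (∀ f, CurveIn Y f → (¬ ∀ z w, f z = f w) →
        ∃ g ∈ S, ∃ h : ℂ → ℂ, Differentiable ℂ h ∧ ∀ z, f z = g (h z)) ∧
      (2 ≤ d → ∀ x ∈ Cone F, ∃ P : MvPolynomial (Fin (n + 1)) ℂ, IsForm P ∧
        (∃ᶠ y in 𝓝 x, y ∈ Cone F ∧ eval y P ≠ 0) ∧
        ∀ g ∈ S, ∀ z, eval (fun i => eval (g z).rep (G i)) P = 0) := by
  classical
  obtain ⟨S, c0, hS⟩ := ENT.mat_null hX hZ hη hN hW hWX hnd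
  have hYn := sub_none hG.ne
  have hTP : Phi '' Y ⊆ PM := (V_sub hYn).trans TF_PM
  obtain ⟨S', h1, h2⟩ := cover_mat hU hO hL hLF (finMap hA hB hG) (compact_V hG.cone hYn) hTP hS
  have hPY := (hA m n e G Y W hG).1
  refine ⟨S'.image fun φ z => toProj (φ z), fun g hg => ?_, fun f hf hne => ?_, fun hd x hx => ?_⟩
  · obtain ⟨φ, hφ, rfl⟩ := Finset.mem_image.1 hg
    obtain ⟨hc, -, ⟨z0, hz0⟩, p, q, hind, hp, hq⟩ := h1 φ hφ
    refine ⟨⟨holMap_of hc.1, fun z => rep_V hG.cone hYn (hc.2 z (mem_univ z))⟩, ?_, fun hcon => ?_⟩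
    · obtain ⟨L, hL⟩ := pair_periods hind hp hq
      exact ⟨L, fun l hl z => by
        change toProj (φ (z + l)) = toProj (φ z)
        rw [hL l hl z]⟩
    · exact hz0 (const_of_toProj hYn (fun z => hc.2 z (mem_univ z)) hcon z0)
  · obtain ⟨g, hg, h, hh, hfg⟩ := h2 (fun z => Phi (f z).rep)
      ⟨holP_of_map hf.1, fun z _ => ⟨_, hf.2 z, rfl⟩⟩ (nonconst_of hf.1 hne)
    refine ⟨_, Finset.mem_image_of_mem _ hg, h, hh, fun z => ?_⟩
    rw [← hfg z, toProj_Phi_rep]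
  · obtain ⟨P, hP1, hP2, hP3⟩ := forms_of hX hWX hS.2.1 hd hx
    refine ⟨P, hP1, hP2, fun g hg z => ?_⟩
    obtain ⟨φ, hφ, rfl⟩ := Finset.mem_image.1 hg
    obtain ⟨hc, ⟨g0, hg0, hPg⟩, -⟩ := h1 φ hφ
    have h3 := hP3 g0 hg0 z
    have h4 : Phi (toProj (φ z)).rep = φ z := Phi_rep_toProj (hTP (hc.2 z (mem_univ z)))
    have h5 : (toProj (φ z)).rep ∈ Y := rep_V hG.cone hYn (hc.2 z (mem_univ z))
    have h6 := hPY _ h5
    rw [h4, hPg z] at h6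
    -- `g0 z = Phi (G (rep))`
    have h7 : (fun i => eval (toProj (φ z)).rep (G i)) ≠ 0 := hG.ne' _ (hG.maps _ h5)
    rw [h6, toProj_Phi h7] at h3
    obtain ⟨c, hc', hcr⟩ := mk_rep_smul h7
    obtain ⟨D, hD⟩ := hP1
    rw [hcr] at h3
    rw [eval_smul hD] at h3
    exact (mul_eq_zero.1 h3).resolve_left (pow_ne_zero _ hc')

end Pool.Agent.Helper65.FC.FIN
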