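import Pool.Agent.Helper65.FC.ALL
import Pool.Agent.Helper65.FC.EXT

/-!
Entire curves in projective sets with a rational map, with finite fibres outside a hypersurface, to a
projective set all whose entire curves are compositions with finitely many doubly periodic curves.
(The module EXT is by helper19.)
-/

set_option autoImplicit false

open Filter Topology MvPolynomial Set LinearAlgebra.Projectivization Pool.Agent.W602.GT
  Pool.Agent.N155 Pool.Agent.N155.BB Pool.Agent.Y190.OP Pool.Agent.Helper65.BF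
  Pool.Agent.Helper65.GG Pool.Agent.Helper65.NC

namespace Pool.Agent.Helper65.FC

/-- `Y` (without `0`) is the cone over a set of points of a projective space (for example, over a
projective variety), and the forms `G 0, …, G n` of degree `e` define, outside the hypersurface
`{Q₀ = 0}`, a map with finite fibres from this set to the projective set with the cone `W`: a
rational map which is generically finite on all components of `Y` outside `{Q₀ = 0}`. -/
structure RationalMap {m n : ℕ} (Y : Set (Fin (m + 1) → ℂ)) (W : Set (Fin (n + 1) → ℂ)) (e q : ℕ)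
    (G : Fin (n + 1) → MvPolynomial (Fin (m + 1)) ℂ) (Q₀ : MvPolynomial (Fin (m + 1)) ℂ) : Prop where
  smul : ∀ y ∈ Y, ∀ c : ℂ, c ≠ 0 → c • y ∈ Y
  hom : ∀ i, (G i).IsHomogeneous e
  hom' : Q₀.IsHomogeneous q
  maps : ∀ y ∈ Y, eval y Q₀ ≠ 0 → (fun i => eval y (G i)) ∈ W
  fib : ∀ x : Fin (n + 1) → ℂ, {y : ℙ ℂ (Fin (m + 1) → ℂ) | y.rep ∈ Y ∧ eval y.rep Q₀ ≠ 0 ∧
    ∃ c : ℂ, (fun i => eval y.rep (G i)) = c • x}.Finite

/-- The image of the rational map is dense (for the Zariski topology) in the projective set with the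
cone `X` near some point: the forms which vanish on the image vanish on `X` near this point. (If `X` is
irreducible, this means that the map is dominant.) -/
def Dominant {m n : ℕ} (Y : Set (Fin (m + 1) → ℂ)) (X : Set (Fin (n + 1) → ℂ))
    (G : Fin (n + 1) → MvPolynomial (Fin (m + 1)) ℂ) (Q₀ : MvPolynomial (Fin (m + 1)) ℂ) : Prop :=
  ∃ x ∈ X, ∀ P : MvPolynomial (Fin (n + 1)) ℂ, IsForm P →
    (∀ y ∈ Y, eval y Q₀ ≠ 0 → eval (fun i => eval y (G i)) P = 0) →
      ∀ᶠ x' in 𝓝 x, x' ∈ X → eval x' P = 0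

variable {m n e q : ℕ} {G : Fin (n + 1) → MvPolynomial (Fin (m + 1)) ℂ}
  {Q₀ : MvPolynomial (Fin (m + 1)) ℂ} {Y : Set (Fin (m + 1) → ℂ)} {W X : Set (Fin (n + 1) → ℂ)}
  {S : Finset (ℂ → ℙ ℂ (Fin (n + 1) → ℂ))}

theorem open_ne (hQ : Q₀.IsHomogeneous q) {f : ℂ → ℙ ℂ (Fin (m + 1) → ℂ)} (hf : HolMap f) :
    IsOpen {z | eval (f z).rep Q₀ ≠ 0} := by
  rw [isOpen_iff_mem_nhds]
  intro z hz
  obtain ⟨V, g, hV, hzV, hg, hfg⟩ := hf z
  have h1 : ∀ w ∈ V, (eval (f w).rep Q₀ ≠ 0 ↔ eval (g w) Q₀ ≠ 0) := by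
    intro w hw
    obtain ⟨h0, he⟩ := hfg w hw
    obtain ⟨c, hc, hcr⟩ := mk_rep_smul h0
    rw [he, hcr, eval_smul hQ]
    constructor
    · intro h2 h3
      exact h2 (by rw [h3, mul_zero])
    · intro h2
      exact mul_ne_zero (pow_ne_zero _ hc) h2
  have h2 : ContinuousAt (fun w => eval (g w) Q₀) z := by
    have h3 : ContinuousAt g z := (hg.differentiableAt (hV.mem_nhds hzV)).continuousAt
    exact (MvPolynomial.continuous_eval Q₀).continuousAt.comp h3
  filter_upwards [hV.mem_nhds hzV, h2.eventually_ne ((h1 z hzV).1 hz)] with w hw h4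
  exact (h1 w hw).2 h4

/-- The image of an entire curve under the rational map is a composition with one of the doubly
periodic curves. -/
theorem rational_of (hE : S_EXT) (hU : S_UNC) (hW : ClosedCone W) (hW0 : ∀ x ∈ W, x ≠ 0)
    (hS : ∀ f, CurveIn W f → (¬ ∀ z w, f z = f w) →
      ∃ g ∈ S, ∃ h : ℂ → ℂ, Differentiable ℂ h ∧ ∀ z, f z = g (h z))
    (hR : RationalMap Y W e q G Q₀) {f : ℂ → ℙ ℂ (Fin (m + 1) → ℂ)} (hf : CurveIn Y f)
    (hne : ¬ ∀ z w, f z = f w) :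
    (∀ z, eval (f z).rep Q₀ = 0) ∨ ∃ g ∈ S, ∃ h : ℂ → ℂ, Differentiable ℂ h ∧
      ∀ z, eval (f z).rep Q₀ ≠ 0 → ∃ c : ℂ, c ≠ 0 ∧
        (fun i => eval (f z).rep (G i)) = c • (g (h z)).rep := by
  by_cases h0 : ∀ z, eval (f z).rep Q₀ = 0
  · exact Or.inl h0
  right
  push Not at h0
  obtain ⟨φ, hφ, hφc⟩ := hE m n e q G Q₀ Y W hW hW0 hR.hom hR.hom' hR.maps hR.smul f hf h0
  have hc : ¬ ∀ z w, φ z = φ w := by
    intro hc
    apply hne
    have hUo := open_ne hR.hom' hf.1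
    have hfin := hR.fib (φ 0).rep
    have h1 : ∃ y, ¬ {z | z ∈ (univ : Set ℂ) ∧ f z = y}.Countable := by
      by_contra hno
      push Not at hno
      refine PIG.not_countable hUo h0 ?_
      refine Countable.mono (s₂ := ⋃ y ∈ {y : ℙ ℂ (Fin (m + 1) → ℂ) | y.rep ∈ Y ∧
        eval y.rep Q₀ ≠ 0 ∧ ∃ c : ℂ, (fun i => eval y.rep (G i)) = c • (φ 0).rep},
          {z | z ∈ (univ : Set ℂ) ∧ f z = y}) (fun z hz => ?_) (hfin.countable.biUnion fun y _ => hno y)
      obtain ⟨c, -, h2⟩ := hφc z hz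
      rw [hc z 0] at h2
      exact mem_iUnion₂.2 ⟨f z, ⟨hf.2 z, hz, c, h2⟩, mem_univ z, rfl⟩
    obtain ⟨y, hy⟩ := h1
    have h2 : ∀ z, f z = y := by
      have h5 : HolP univ (fun _ : ℂ => Phi y.rep) := fun z hz =>
        ⟨univ, fun _ => y.rep, isOpen_univ, hz, differentiableOn_const _,
          fun w _ => ⟨y.rep_nonzero, rfl⟩⟩
      have h6 : ¬ {z | z ∈ (univ : Set ℂ) ∧ Phi (f z).rep = Phi y.rep}.Countable := by
        intro h4
        have h7 : {z | z ∈ (univ : Set ℂ) ∧ f z = y} ⊆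
            {z | z ∈ (univ : Set ℂ) ∧ Phi (f z).rep = Phi y.rep} := by
          intro z hz
          refine ⟨hz.1, ?_⟩
          rw [hz.2]
        exact hy (h4.mono h7)
      have h3 := hU m univ (fun z => Phi (f z).rep) (fun _ => Phi y.rep) isOpen_univ
        isPreconnected_univ (holP_of_map hf.1) h5 h6
      intro z
      exact proj_ext (h3 z (mem_univ z))
    intro z w
    rw [h2 z, h2 w]
  obtain ⟨g, hg, h, hh, hfg⟩ := hS φ hφ hc
  refine ⟨g, hg, h, hh, fun z hz => ?_⟩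
  rw [← hfg z]
  exact hφc z hz

theorem eval_aeval (P : MvPolynomial (Fin (n + 1)) ℂ) (y : Fin (m + 1) → ℂ) :
    eval y (aeval G P) = eval (fun i => eval y (G i)) P := by
  rw [aeval_def, eval₂_comp_left (eval y)]
  have h1 : (eval y).comp (algebraMap ℂ (MvPolynomial (Fin (m + 1)) ℂ)) = RingHom.id ℂ := by
    ext
    simp
  rw [h1]
  rfl

/-- A rational map is dominant near some point: a form on `Y` which is not identically zero and
vanishes along all entire curves. -/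
theorem dominant_form (hR : RationalMap Y W e q G Q₀)
    (hfac : ∀ f, CurveIn Y f → (¬ ∀ z w, f z = f w) →
      (∀ z, eval (f z).rep Q₀ = 0) ∨ ∃ g ∈ S, ∃ h : ℂ → ℂ, Differentiable ℂ h ∧
        ∀ z, eval (f z).rep Q₀ ≠ 0 → ∃ c : ℂ, c ≠ 0 ∧
          (fun i => eval (f z).rep (G i)) = c • (g (h z)).rep)
    (h : ∀ x ∈ X, ∃ P : MvPolynomial (Fin (n + 1)) ℂ, IsForm P ∧
      (∃ᶠ y in 𝓝 x, y ∈ X ∧ eval y P ≠ 0) ∧ ∀ g ∈ S, ∀ z, eval (g z).rep P = 0)
    (hdom : Dominant Y X G Q₀) :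
    ∃ Q : MvPolynomial (Fin (m + 1)) ℂ, IsForm Q ∧ (∃ y ∈ Y, eval y Q ≠ 0) ∧
      ∀ f, CurveIn Y f → (¬ ∀ z w, f z = f w) → ∀ z, eval (f z).rep Q = 0 := by
  obtain ⟨x, hx, hdom⟩ := hdom
  obtain ⟨P, ⟨D, hD⟩, hP2, hP3⟩ := h x hx
  refine ⟨Q₀ * aeval G P, ⟨q + e * D, hR.hom'.mul (hD.aeval G hR.hom)⟩, ?_, fun f hf hne z => ?_⟩
  · by_contra hno
    push Not at hno
    have h1 := hdom P ⟨D, hD⟩ fun y hy hq => by
      have h2 := hno y hy
      rw [map_mul, eval_aeval] at h2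
      exact (mul_eq_zero.1 h2).resolve_left hq
    obtain ⟨x', ⟨h3, h4⟩, h5⟩ := (hP2.and_eventually h1).exists
    exact h4 (h5 h3)
  · rw [map_mul, eval_aeval]
    by_cases h0 : eval (f z).rep Q₀ = 0
    · rw [h0, zero_mul]
    rcases hfac f hf hne with h1 | ⟨g, hg, h', -, h2⟩
    · exact absurd (h1 z) h0
    · obtain ⟨c, -, h3⟩ := h2 z h0
      rw [h3, eval_smul hD, hP3 g hg, mul_zero, mul_zero]

end Pool.Agent.Helper65.FC
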