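import Pool.Agent.Helper65.FC.FER
import Pool.Agent.Helper65.FC.RAT

/-!
Entire curves in projective varieties with a finite morphism or a generically finite rational map to
a Fermat cover of a projective space.
-/

set_option autoImplicit false

open Filter Topology MvPolynomial Set LinearAlgebra.Projectivization Pool.Agent.W602.GT
  Pool.Agent.N155 Pool.Agent.N155.BB Pool.Agent.Y190.OP Pool.Agent.Helper65.BF
  Pool.Agent.Helper65.GG Pool.Agent.Helper65.NC

namespace Pool.Agent.Helper65.FC

theorem finite_id {n : ℕ} {W : Set (Fin (n + 1) → ℂ)} (hW : ClosedCone W)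
    (hW0 : ∀ x ∈ W, x ≠ 0) : FiniteMorphism W W 1 fun i => X i := by
  refine ⟨hW, fun h => hW0 0 h rfl, fun i => isHomogeneous_X _ _, fun y hy => ?_, fun x => ?_⟩
  · have h1 : (fun i => eval y (X i : MvPolynomial (Fin (n + 1)) ℂ)) = y := by
      funext i
      rw [eval_X]
    rw [h1]
    exact hy
  · refine Set.Subsingleton.finite ?_
    rintro y ⟨-, c, hc⟩ y' ⟨-, c', hc'⟩
    have h1 : y.rep = c • x := by
      rw [← hc]
      funext i
      rw [eval_X]
    have h2 : y'.rep = c' • x := by
      rw [← hc']
      funext i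
      rw [eval_X]
    have hc0 : c ≠ 0 := by
      rintro rfl
      exact y.rep_nonzero (by rw [h1, zero_smul])
    have hc0' : c' ≠ 0 := by
      rintro rfl
      exact y'.rep_nonzero (by rw [h2, zero_smul])
    apply proj_ext
    rw [h1, h2, Phi_smul hc0, Phi_smul hc0']

end Pool.Agent.Helper65.FC
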