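import Pool.Agent.Helper65.GG.Thm

/-!
Finite maps to projective sets: the statements of the modules.

`T` and `T'` are compact sets of points of projective spaces (represented by matrices, see `Phi`), and
`P` is a map from `T` to `T'` with finite fibres which maps holomorphic curves to holomorphic curves.
-/

set_option autoImplicit false

open Filter Topology Metric MvPolynomial Set LinearAlgebra.Projectivization

namespace Pool.Agent.Helper65.FC

open Pool.Agent.W602.GT Pool.Agent.N155.BB Pool.Agent.Y190.OP Pool.Agent.N155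
  Pool.Agent.N155.GD Pool.Agent.Helper65.BF Pool.Agent.Helper65.GG

/-- a map with finite fibres which maps holomorphic curves in `T` to holomorphic curves in `T'` -/
structure FinMap {m n : ℕ} (T : Set (Mat (m + 1))) (T' : Set (Mat (n + 1)))
    (P : Mat (m + 1) → Mat (n + 1)) : Prop where
  cont : ContinuousOn P T
  curve : ∀ (U : Set ℂ) (φ : ℂ → Mat (m + 1)), IsOpen U → CvOn T U φ →
    CvOn T' U (fun z => P (φ z))
  lip : ∃ A : ℝ, 0 < A ∧ ∀ (U : Set ℂ) (φ : ℂ → Mat (m + 1)), IsOpen U → CvOn T U φ →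
    ∀ z ∈ U, ‖fderiv ℝ (fun z => P (φ z)) z‖ ≤ A * ‖fderiv ℝ φ z‖
  fin : ∀ M : Mat (n + 1), {x | x ∈ T ∧ P x = M}.Finite

/-- **UNC** Curves which coincide at uncountably many points are equal (an uncountable set of complex
numbers has an accumulation point in the set; then `GG/Fac.lean`: `holP_freq`, `holP_ext_on`). -/
def S_UNC : Prop := ∀ (m : ℕ) (U : Set ℂ) (φ ψ : ℂ → Mat (m + 1)), IsOpen U → IsPreconnected U →
  HolP U φ → HolP U ψ → ¬ {z | z ∈ U ∧ φ z = ψ z}.Countable → ∀ z ∈ U, φ z = ψ z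

/-- **PIG** (`main : S_UNC → S_PIG`) Otherwise choose infinitely many `G k` which are pairwise
different on `U`; the sets where two of them coincide are countable by `S_UNC`, the nonempty open set
`U` is not countable, so there is `z ∈ U` such that the values `G k z` are pairwise different. -/
def S_PIG : Prop := ∀ (m : ℕ) (U : Set ℂ) (G : ℕ → ℂ → Mat (m + 1)), IsOpen U → IsPreconnected U →
  U.Nonempty → (∀ k, HolP U (G k)) → (∀ z ∈ U, (range fun k => G k z).Finite) →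
    ∃ K : Finset ℕ, ∀ k, ∃ j ∈ K, ∀ z ∈ U, G k z = G j z

/-- **LFT** (`main : S_PIG → S_LFT`) An entire lift of a doubly periodic curve is doubly periodic:
apply `S_PIG` to `G k = fun z => G (z + k * p)`, `U = univ`; two of them are equal, so some `j * p`,
`1 ≤ j`, is a period. -/
def S_LFT : Prop := ∀ (m n : ℕ) (T : Set (Mat (m + 1))) (T' : Set (Mat (n + 1)))
  (P : Mat (m + 1) → Mat (n + 1)), FinMap T T' P → ∀ (g : ℂ → Mat (n + 1)) (p q : ℂ),
    LinearIndependent ℝ ![p, q] → (∀ z, g (z + p) = g z) → (∀ z, g (z + q) = g z) →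
      ∀ G : ℂ → Mat (m + 1), CvOn T univ G → (∀ z, P (G z) = g z) →
        ∃ p' q' : ℂ, LinearIndependent ℝ ![p', q'] ∧ (∀ z, G (z + p') = G z) ∧
          ∀ z, G (z + q') = G z

/-- **LFF** (`main : S_PIG → S_LFF`) There are only finitely many entire lifts (otherwise take an
injective sequence of them and apply `S_PIG` with `U = univ`). -/
def S_LFF : Prop := ∀ (m n : ℕ) (T : Set (Mat (m + 1))) (T' : Set (Mat (n + 1)))
  (P : Mat (m + 1) → Mat (n + 1)), FinMap T T' P → ∀ g : ℂ → Mat (n + 1),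
    {G : ℂ → Mat (m + 1) | CvOn T univ G ∧ ∀ z, P (G z) = g z}.Finite

/-- **INVL** Quantitative inverse function theorem (Mathlib: `ApproximatesLinearOn`, or contraction
principle: `ζ ↦ ζ - (u ζ - w) / a` maps the closed ball of radius `1/3` to itself; `u` is injective on
the unit ball since `u - a` is `|a|/4`-Lipschitz; the inverse is holomorphic because `u' ≠ 0`). -/
def S_INVL : Prop := ∀ (u : ℂ → ℂ) (a : ℂ), a ≠ 0 → DifferentiableOn ℂ u (ball 0 1) →
  (∀ z ∈ ball (0 : ℂ) 1, ‖deriv u z - a‖ ≤ ‖a‖ / 4) →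
    ∃ v : ℂ → ℂ, DifferentiableOn ℂ v (ball (u 0) (‖a‖ / 4)) ∧
      MapsTo v (ball (u 0) (‖a‖ / 4)) (ball 0 1) ∧ ∀ w ∈ ball (u 0) (‖a‖ / 4), u (v w) = w

/-- **EST** (Cauchy estimate for the second derivative, then the mean value inequality twice; with
`ρ = (k + 1) / 2 ≥ 2 R` the second derivative is at most `M / (ρ - R) ≤ 4 M / (k + 1)` on the ball of
radius `R`). -/
def S_EST : Prop := ∀ (M : ℝ) (k : ℕ) (u : ℂ → ℂ), 0 ≤ M →
  DifferentiableOn ℂ u (ball 0 (((k : ℝ) + 1) / 2)) →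
  (∀ z ∈ ball (0 : ℂ) (((k : ℝ) + 1) / 2), ‖deriv u z‖ ≤ M) →
    ∀ R : ℝ, 0 < R → 4 * R ≤ k + 1 → ∀ z ∈ ball (0 : ℂ) R,
      ‖deriv u z - deriv u 0‖ ≤ 8 * M * R / (k + 1) ∧
      ‖u z - u 0 - deriv u 0 * z‖ ≤ 8 * M * R ^ 2 / (k + 1)

/-- **RSC** Brody's reparametrization of an entire curve with its limit: `rescale'` and
`limit_growing` of `GG/Base.lean`, applied to `Ψ z = φ (z0 + L z)` with `fderiv φ z0 ≠ 0` and large `L`
(compare `brody_bound` in `NC/EQV.lean`). -/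
def S_RSC : Prop := ∀ (m : ℕ) (T : Set (Mat (m + 1))) (φ : ℂ → Mat (m + 1)), IsCompact T → T ⊆ PM →
  CvOn T univ φ → (∃ z, fderiv ℝ φ z ≠ 0) →
    ∃ (α : ℕ → ℂ) (r : ℕ → ℝ) (H : ℂ → Mat (m + 1)), (∀ k, 0 < r k) ∧
      (∀ (k : ℕ), ∀ z ∈ ball (0 : ℂ) (((k : ℝ) + 1) / 2),
        ‖fderiv ℝ (fun ζ : ℂ => φ (α k + r k * ζ)) z‖ ≤ 2) ∧
      BD T H ∧ ‖fderiv ℝ H 0‖ = 1 ∧
      ∀ R : ℝ, 0 < R → CConv ((hyperfilter ℕ : Ultrafilter ℕ) : Filter ℕ) (ball 0 R)
        (fun (k : ℕ) (ζ : ℂ) => φ (α k + r k * ζ)) H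

/-- **ONE** (`main : S_UNC → S_PIG → S_INVL → S_EST → S_RSC → S_ONE`) Every entire curve over an
immersed doubly periodic curve `g` is the composition of `h` and an entire lift of `g`. -/
def S_ONE : Prop := ∀ (m n : ℕ) (T : Set (Mat (m + 1))) (T' : Set (Mat (n + 1)))
  (P : Mat (m + 1) → Mat (n + 1)), FinMap T T' P → IsCompact T → T ⊆ PM →
    ∀ (g : ℂ → Mat (n + 1)) (c0 : ℝ) (p q : ℂ), 0 < c0 → BCw T' c0 g →
      LinearIndependent ℝ ![p, q] → (∀ z, g (z + p) = g z) → (∀ z, g (z + q) = g z) →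
        ∀ (φ : ℂ → Mat (m + 1)) (h : ℂ → ℂ), CvOn T univ φ → (∃ z, fderiv ℝ φ z ≠ 0) →
          Differentiable ℂ h → (∀ z, P (φ z) = g (h z)) →
            ∃ G : ℂ → Mat (m + 1), CvOn T univ G ∧ (∀ w, P (G w) = g w) ∧ ∀ z, φ z = G (h z)

/-- The map of projective spaces (of matrices) given by the forms `G i`. -/
noncomputable def PG {m n : ℕ} (G : Fin (n + 1) → MvPolynomial (Fin (m + 1)) ℂ)
    (M : Mat (m + 1)) : Mat (n + 1) := Phi fun i => eval (toProj M).rep (G i)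

/-- the hypotheses on the forms -/
structure Forms {m n : ℕ} (e : ℕ) (G : Fin (n + 1) → MvPolynomial (Fin (m + 1)) ℂ)
    (Y : Set (Fin (m + 1) → ℂ)) (W : Set (Fin (n + 1) → ℂ)) : Prop where
  cone : ClosedCone Y
  ne : ∀ y ∈ Y, y ≠ 0
  ne' : ∀ x ∈ W, x ≠ 0
  hom : ∀ i, (G i).IsHomogeneous e
  maps : ∀ y ∈ Y, (fun i => eval y (G i)) ∈ W
  fib : ∀ x : Fin (n + 1) → ℂ, {y : ℙ ℂ (Fin (m + 1) → ℂ) | y.rep ∈ Y ∧
    ∃ c : ℂ, (fun i => eval y.rep (G i)) = c • x}.Finite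

/-- **POLA** If `φ = Phi ∘ F` locally, then `PG G ∘ φ = Phi ∘ (G ∘ F)` (`(toProj (Phi u)).rep` is a
multiple of `u`, `Phi_smul`, homogeneity). Finite fibres: `PG G M = Phi x` only if
`G (toProj M).rep` is a multiple of `x` (`Phi_inj`), and `M = Phi (toProj M).rep`. -/
def S_POLA : Prop := ∀ (m n e : ℕ) (G : Fin (n + 1) → MvPolynomial (Fin (m + 1)) ℂ)
  (Y : Set (Fin (m + 1) → ℂ)) (W : Set (Fin (n + 1) → ℂ)), Forms e G Y W →
    (∀ y ∈ Y, PG G (Phi y) = Phi fun i => eval y (G i)) ∧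
    (∀ (U : Set ℂ) (φ : ℂ → Mat (m + 1)), IsOpen U → CvOn (Phi '' Y) U φ →
      CvOn (Phi '' W) U (fun z => PG G (φ z))) ∧
    ∀ M : Mat (n + 1), {x | x ∈ Phi '' Y ∧ PG G x = M}.Finite

/-- **POLB** (`main : S_POLA → S_POLB`) Near a point `M₀` of `Phi '' Y` with `M₀ j j ≠ 0` the vector
`y = (M k j)_k` represents `M`, and `PG G M = Phi (G y)` is given by a smooth function of `M` (defined
for all matrices `M` near `M₀`); its derivative is bounded near `M₀`; `Phi '' Y` is compact. (Or use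
`wedge_fderivOn` and the inequality `|G y ∧ DG y v| ≤ C |y|^(2 e - 2) |y ∧ v|`.) -/
def S_POLB : Prop := ∀ (m n e : ℕ) (G : Fin (n + 1) → MvPolynomial (Fin (m + 1)) ℂ)
  (Y : Set (Fin (m + 1) → ℂ)) (W : Set (Fin (n + 1) → ℂ)), Forms e G Y W →
    ContinuousOn (PG G) (Phi '' Y) ∧
    ∃ A : ℝ, 0 < A ∧ ∀ (U : Set ℂ) (φ : ℂ → Mat (m + 1)), IsOpen U → CvOn (Phi '' Y) U φ →
      ∀ z ∈ U, ‖fderiv ℝ (fun z => PG G (φ z)) z‖ ≤ A * ‖fderiv ℝ φ z‖

end Pool.Agent.Helper65.FC
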