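import Pool.Agent.Helper65.FC.Stm

/-!
Rational maps to projective sets: the statement of the module.
-/

set_option autoImplicit false

open Filter Topology Metric MvPolynomial Set LinearAlgebra.Projectivization

namespace Pool.Agent.Helper65.FC

open Pool.Agent.W602.GT Pool.Agent.N155.BB Pool.Agent.Y190.OP Pool.Agent.N155
  Pool.Agent.N155.GD Pool.Agent.Helper65.BF Pool.Agent.Helper65.GG

/-- **EXT** The image of an entire curve under a rational map extends to an entire curve.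

Proof. Let `F` be a local lift of `f` near `z₀` (`HolMap`). `Q₀ ∘ F` is not identically zero near `z₀`
(the set of the points near which it vanishes identically is open and closed, and not the plane; it
does not depend on the lift since `Q₀` is homogeneous). So `G ∘ F` is not identically zero near `z₀`
(`0 ∉ W`), and `G (F w) = (w - z₀) ^ k • H w` with `H` analytic, `H z₀ ≠ 0`
(`AnalyticAt.exists_eventuallyEq_pow_smul_nonzero_iff`). Put `φ z₀ = [H z₀]` (choose `F`, `k`, `H` for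
every `z₀`). Near `z₀`, `w ≠ z₀`, both `φ w` and `[H w]` are `[G (F w)]` (`G (F w) ≠ 0`, so `k = 0` at
`w`), so `φ = [H]` near `z₀`; and `H w ∈ W` for `w ≠ z₀` near `z₀` (`W` is a cone), so `H z₀ ∈ W` because
`W` is closed and `H z₀ ≠ 0`. -/
def S_EXT : Prop := ∀ (m n e q : ℕ) (G : Fin (n + 1) → MvPolynomial (Fin (m + 1)) ℂ)
  (Q₀ : MvPolynomial (Fin (m + 1)) ℂ) (Y : Set (Fin (m + 1) → ℂ)) (W : Set (Fin (n + 1) → ℂ)),
    ClosedCone W → (∀ x ∈ W, x ≠ 0) → (∀ i, (G i).IsHomogeneous e) → Q₀.IsHomogeneous q →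
    (∀ y ∈ Y, eval y Q₀ ≠ 0 → (fun i => eval y (G i)) ∈ W) →
    (∀ y ∈ Y, ∀ c : ℂ, c ≠ 0 → c • y ∈ Y) →
      ∀ f : ℂ → ℙ ℂ (Fin (m + 1) → ℂ), CurveIn Y f → (∃ z, eval (f z).rep Q₀ ≠ 0) →
        ∃ φ : ℂ → ℙ ℂ (Fin (n + 1) → ℂ), CurveIn W φ ∧
          ∀ z, eval (f z).rep Q₀ ≠ 0 → ∃ c : ℂ, c ≠ 0 ∧
            (fun i => eval (f z).rep (G i)) = c • (φ z).rep

end Pool.Agent.Helper65.FC
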